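import Mathlib
import Pool.Agent.R838.ST.Rou

set_option autoImplicit false

/-!
# Rouché's theorem for bounded open sets, and semicontinuity of the number of zeros
-/

namespace Pool.Agent.P8H74.SD

open Complex Filter Topology Metric Set
open Pool.Agent.R838.ST (nb rouche)

/-- number of zeros in a set, with multiplicity -/
noncomputable def cnt (U : Set ℂ) (f : ℂ → ℂ) : ℕ := ∑ᶠ z ∈ U, analyticOrderNatAt f z

theorem fin_zeros {f : ℂ → ℂ} (hf : Differentiable ℂ f) (hne : ∃ z, f z ≠ 0) {K : Set ℂ} (hK : IsCompact K) :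
    {z | z ∈ K ∧ f z = 0}.Finite := by
  by_contra hinf
  have hinf' : {z | z ∈ K ∧ f z = 0}.Infinite := hinf
  obtain ⟨x, hx, hacc⟩ := hinf'.exists_accPt_of_subset_isCompact hK (fun z hz => hz.1)
  have hfr : ∃ᶠ z in 𝓝[≠] x, f z = 0 := (accPt_iff_frequently_nhdsNE.1 hacc).mono fun z hz => hz.2
  obtain ⟨z0, hz0⟩ := hne
  exact hz0 (AnalyticOnNhd.eqOn_zero_of_preconnected_of_frequently_eq_zero
    (fun z _ => hf.analyticAt z) isPreconnected_univ (mem_univ x) hfr (mem_univ z0))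

theorem ord_zero {f : ℂ → ℂ} (hf : Differentiable ℂ f) {z : ℂ} (h : f z ≠ 0) : analyticOrderNatAt f z = 0 := by
  have h1 := (hf.analyticAt z).analyticOrderAt_eq_zero.2 h
  unfold analyticOrderNatAt
  rw [h1]
  simp

theorem cnt_eq_sum {f : ℂ → ℂ} (hf : Differentiable ℂ f) {U : Set ℂ} {Z : Finset ℂ}
    (h1 : ∀ z ∈ U, f z = 0 → z ∈ Z) (h2 : ∀ z ∈ Z, z ∈ U) : cnt U f = ∑ z ∈ Z, analyticOrderNatAt f z := by
  unfold cnt
  rw [finsum_mem_eq_sum_of_inter_support_eq]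
  ext z
  constructor
  · rintro ⟨h3, h4⟩
    refine ⟨h1 z h3 ?_, h4⟩
    by_contra h5
    exact h4 (ord_zero hf h5)
  · rintro ⟨h3, h4⟩
    exact ⟨h2 z h3, h4⟩

/-- zeros in small discs around the points of a finite set -/
theorem sum_nb {f : ℂ → ℂ} (hf : Differentiable ℂ f) (hne : ∃ z, f z ≠ 0) {U : Set ℂ}
    (hbd : Bornology.IsBounded U) {Z : Finset ℂ} {r : ℝ}
    (hr : ∀ z ∈ Z, closedBall z r ⊆ U) (hd : ∀ z ∈ Z, ∀ w ∈ Z, z ≠ w → 2 * r < dist z w) :
    ∑ z ∈ Z, nb f z r ≤ cnt U f ∧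
      ((∀ w ∈ U, f w = 0 → ∃ z ∈ Z, w ∈ ball z r) → ∑ z ∈ Z, nb f z r = cnt U f) := by
  classical
  have hK : IsCompact (closure U) := hbd.isCompact_closure
  have hfin := fin_zeros hf hne hK
  obtain ⟨W, hW⟩ : ∃ W : Finset ℂ, W = hfin.toFinset := ⟨_, rfl⟩
  have hmem : ∀ z, z ∈ W ↔ z ∈ closure U ∧ f z = 0 := by
    intro z; rw [hW, Set.Finite.mem_toFinset]; rfl
  have e1 : cnt U f = ∑ z ∈ W.filter (fun z => z ∈ U), analyticOrderNatAt f z := by
    refine cnt_eq_sum hf ?_ ?_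
    · intro z hz h0
      rw [Finset.mem_filter, hmem]
      exact ⟨⟨subset_closure hz, h0⟩, hz⟩
    · intro z hz
      exact (Finset.mem_filter.1 hz).2
  have hballU : ∀ z ∈ Z, ball z r ⊆ U := fun z hz => ball_subset_closedBall.trans (hr z hz)
  have e2 : ∀ z ∈ Z, nb f z r = ∑ w ∈ W.filter (fun w => w ∈ ball z r), analyticOrderNatAt f w := by
    intro z hz
    refine cnt_eq_sum (U := ball z r) hf ?_ ?_
    · intro w hw h0
      rw [Finset.mem_filter, hmem]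
      exact ⟨⟨subset_closure (hballU z hz hw), h0⟩, hw⟩
    · intro w hw
      exact (Finset.mem_filter.1 hw).2
  have hdisj : ∀ z ∈ Z, ∀ w ∈ Z, z ≠ w → Disjoint (W.filter (fun v => v ∈ ball z r)) (W.filter (fun v => v ∈ ball w r)) := by
    intro z hz w hw hzw
    rw [Finset.disjoint_left]
    intro v hv hv'
    have h1 := mem_ball.1 (Finset.mem_filter.1 hv).2
    have h2 := mem_ball.1 (Finset.mem_filter.1 hv').2
    have h3 := dist_triangle_left z w v
    have h4 := hd z hz w hw hzw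
    linarith
  have e3 : ∑ z ∈ Z, nb f z r = ∑ w ∈ Z.biUnion (fun z => W.filter (fun w => w ∈ ball z r)), analyticOrderNatAt f w := by
    rw [Finset.sum_biUnion (fun z hz w hw hzw => hdisj z hz w hw hzw)]
    exact Finset.sum_congr rfl e2
  have hsub : Z.biUnion (fun z => W.filter (fun w => w ∈ ball z r)) ⊆ W.filter (fun z => z ∈ U) := by
    intro w hw
    rw [Finset.mem_biUnion] at hw
    obtain ⟨z, hz, hw⟩ := hw
    rw [Finset.mem_filter] at hw ⊢
    exact ⟨hw.1, hballU z hz hw.2⟩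
  refine ⟨?_, fun hall => ?_⟩
  · rw [e3, e1]
    exact Finset.sum_le_sum_of_subset hsub
  · rw [e3, e1]
    congr 1
    refine Finset.Subset.antisymm hsub ?_
    intro w hw
    rw [Finset.mem_filter] at hw
    obtain ⟨z, hz, hwz⟩ := hall w hw.2 ((hmem w).1 hw.1).2
    rw [Finset.mem_biUnion]
    exact ⟨z, hz, Finset.mem_filter.2 ⟨hw.1, hwz⟩⟩

/-- a common radius -/
theorem exists_radius {U : Set ℂ} (hU : IsOpen U) (Z Z0 : Finset ℂ) (hZU : ∀ z ∈ Z, z ∈ U) :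
    ∃ r : ℝ, 0 < r ∧ (∀ z ∈ Z, closedBall z r ⊆ U) ∧ ∀ z ∈ Z, ∀ w ∈ Z0, z ≠ w → 2 * r < dist z w := by
  have h1 : ∀ z ∈ Z, ∀ᶠ r : ℝ in 𝓝[>] 0, closedBall z r ⊆ U := by
    intro z hz
    obtain ⟨ε, hε, h⟩ := Metric.isOpen_iff.1 hU z (hZU z hz)
    filter_upwards [Ioo_mem_nhdsGT hε] with r hr
    exact (closedBall_subset_ball hr.2).trans h
  have h2 : ∀ z ∈ Z, ∀ w ∈ Z0, ∀ᶠ r : ℝ in 𝓝[>] 0, z ≠ w → 2 * r < dist z w := by
    intro z _ w _
    by_cases hzw : z = w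
    · filter_upwards with r h
      exact absurd hzw h
    · have hpos : 0 < dist z w / 2 := by
        have := dist_pos.2 hzw
        linarith
      filter_upwards [Ioo_mem_nhdsGT hpos] with r hr _
      have := hr.2
      linarith
  have h3 : ∀ᶠ r : ℝ in 𝓝[>] 0, ∀ z ∈ Z, closedBall z r ⊆ U := (Filter.eventually_all_finset Z).2 h1
  have h4 : ∀ᶠ r : ℝ in 𝓝[>] 0, ∀ z ∈ Z, ∀ w ∈ Z0, z ≠ w → 2 * r < dist z w :=
    (Filter.eventually_all_finset Z).2 fun z hz => (Filter.eventually_all_finset Z0).2 (h2 z hz)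
  have h5 : ∀ᶠ r : ℝ in 𝓝[>] 0, 0 < r := self_mem_nhdsWithin
  obtain ⟨r, a, b, c⟩ := (h5.and (h3.and h4)).exists
  exact ⟨r, a, b, c⟩

theorem exists_lower {g : ℂ → ℂ} (hg : Differentiable ℂ g) {K : Set ℂ} (hK : IsCompact K) (h : ∀ z ∈ K, g z ≠ 0) :
    ∃ m : ℝ, 0 < m ∧ ∀ z ∈ K, m ≤ ‖g z‖ := by
  rcases K.eq_empty_or_nonempty with rfl | hne
  · exact ⟨1, one_pos, fun z hz => absurd hz (Set.notMem_empty z)⟩
  · obtain ⟨z0, hz0, hmin⟩ := hK.exists_isMinOn hne hg.continuous.norm.continuousOn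
    exact ⟨‖g z0‖, norm_pos_iff.2 (h z0 hz0), fun z hz => hmin hz⟩

/-- **Stability of the number of zeros.** -/
theorem cnt_stable {G : ℂ → ℂ} (hG : Differentiable ℂ G) (hne : ∃ z, G z ≠ 0) {U : Set ℂ} (hU : IsOpen U)
    (hbd : Bornology.IsBounded U) (hfr : ∀ z ∈ frontier U, G z ≠ 0) (hfn : (frontier U).Nonempty) :
    ∃ m : ℝ, 0 < m ∧ ∀ H : ℂ → ℂ, Differentiable ℂ H → (∀ z ∈ closure U, ‖G z - H z‖ < m) → cnt U H = cnt U G := by
  classical
  have hK : IsCompact (closure U) := hbd.isCompact_closure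
  have hfin := fin_zeros hG hne hK
  obtain ⟨Z, hZ⟩ : ∃ Z : Finset ℂ, Z = hfin.toFinset := ⟨_, rfl⟩
  have hmem : ∀ z, z ∈ Z ↔ z ∈ closure U ∧ G z = 0 := by
    intro z; rw [hZ, Set.Finite.mem_toFinset]; rfl
  have hZU : ∀ z ∈ Z, z ∈ U := by
    intro z hz
    obtain ⟨h1, h2⟩ := (hmem z).1 hz
    by_contra h3
    refine hfr z ?_ h2
    rw [frontier, hU.interior_eq]
    exact ⟨h1, h3⟩
  obtain ⟨r, hr, hr1, hr2⟩ := exists_radius hU Z Z hZU
  obtain ⟨K', hK'⟩ : ∃ K' : Set ℂ, K' = closure U \ ⋃ z ∈ Z, ball z r := ⟨_, rfl⟩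
  have hK'c : IsCompact K' := by
    rw [hK']
    exact hK.diff (isOpen_biUnion fun z _ => isOpen_ball)
  obtain ⟨m, hm, hm2⟩ := exists_lower hG hK'c (fun z hz h0 => by
    rw [hK'] at hz
    apply hz.2
    exact mem_biUnion ((hmem z).2 ⟨hz.1, h0⟩) (mem_ball_self hr))
  have hsph : ∀ z ∈ Z, ∀ w ∈ sphere z r, w ∈ K' := by
    intro z hz w hw
    rw [hK']
    refine ⟨subset_closure (hr1 z hz (sphere_subset_closedBall hw)), ?_⟩
    intro hcon
    rw [mem_iUnion₂] at hcon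
    obtain ⟨v, hv, hwv⟩ := hcon
    have h1 := mem_sphere.1 hw
    have h2 := mem_ball.1 hwv
    by_cases hzv : z = v
    · rw [hzv] at h1
      linarith
    · have h3 := hr2 z hz v hv hzv
      have h4 := dist_triangle_left z v w
      linarith
  refine ⟨m, hm, fun H hH hclose => ?_⟩
  have hHne : ∀ w ∈ K', H w ≠ 0 := by
    intro w hw h0
    have h1 := hclose w (by rw [hK'] at hw; exact hw.1)
    rw [h0, sub_zero] at h1
    exact absurd (hm2 w hw) (not_le.2 h1)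
  have hHex : ∃ z, H z ≠ 0 := by
    obtain ⟨w, hw⟩ := hfn
    refine ⟨w, hHne w ?_⟩
    rw [hK']
    refine ⟨frontier_subset_closure hw, ?_⟩
    intro hcon
    rw [mem_iUnion₂] at hcon
    obtain ⟨v, hv, hwv⟩ := hcon
    have h1 : w ∈ U := hr1 v hv (ball_subset_closedBall hwv)
    rw [frontier, hU.interior_eq] at hw
    exact hw.2 h1
  have e1 : ∑ z ∈ Z, nb G z r = cnt U G := (sum_nb hG hne hbd hr1 hr2).2 fun w hw h0 =>
    ⟨w, (hmem w).2 ⟨subset_closure hw, h0⟩, mem_ball_self hr⟩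
  have e2 : ∑ z ∈ Z, nb H z r = cnt U H := (sum_nb hH hHex hbd hr1 hr2).2 fun w hw h0 => by
    by_contra hcon
    push Not at hcon
    refine hHne w ?_ h0
    rw [hK']
    refine ⟨subset_closure hw, ?_⟩
    intro h1
    rw [mem_iUnion₂] at h1
    obtain ⟨v, hv, hwv⟩ := h1
    exact hcon v hv hwv
  rw [← e1, ← e2]
  refine Finset.sum_congr rfl fun z hz => ?_
  refine ((rouche hG hH hr fun w hw => ?_).1).symm
  have h1 := hm2 w (hsph z hz w hw)
  have h2 := hclose w (by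
    have := hsph z hz w hw
    rw [hK'] at this
    exact this.1)
  linarith

/-- **Semicontinuity of the number of zeros in an open set.** -/
theorem cnt_lower {G : ℂ → ℂ} (hG : Differentiable ℂ G) (hne : ∃ z, G z ≠ 0) {U : Set ℂ} (hU : IsOpen U)
    (hbd : Bornology.IsBounded U) :
    ∃ m : ℝ, 0 < m ∧ ∀ H : ℂ → ℂ, Differentiable ℂ H → (∀ z ∈ closure U, ‖G z - H z‖ < m) → cnt U G ≤ cnt U H := by
  classical
  have hK : IsCompact (closure U) := hbd.isCompact_closure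
  have hfin := fin_zeros hG hne hK
  obtain ⟨Z0, hZ0⟩ : ∃ Z0 : Finset ℂ, Z0 = hfin.toFinset := ⟨_, rfl⟩
  have hmem0 : ∀ z, z ∈ Z0 ↔ z ∈ closure U ∧ G z = 0 := by
    intro z; rw [hZ0, Set.Finite.mem_toFinset]; rfl
  obtain ⟨Z, hZ⟩ : ∃ Z : Finset ℂ, Z = Z0.filter (fun z => z ∈ U) := ⟨_, rfl⟩
  have hmem : ∀ z, z ∈ Z ↔ z ∈ U ∧ G z = 0 := by
    intro z
    rw [hZ, Finset.mem_filter, hmem0]
    constructor
    · rintro ⟨⟨-, h⟩, h'⟩
      exact ⟨h', h⟩
    · rintro ⟨h, h'⟩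
      exact ⟨⟨subset_closure h, h'⟩, h⟩
  obtain ⟨r, hr, hr1, hr2⟩ := exists_radius hU Z Z0 fun z hz => ((hmem z).1 hz).1
  have hsub : ∀ z ∈ Z, z ∈ Z0 := fun z hz => by
    rw [hZ] at hz
    exact (Finset.mem_filter.1 hz).1
  obtain ⟨K', hK'⟩ : ∃ K' : Set ℂ, K' = ⋃ z ∈ Z, sphere z r := ⟨_, rfl⟩
  have hK'c : IsCompact K' := by
    rw [hK']
    exact Z.isCompact_biUnion fun z _ => isCompact_sphere z r
  have hK'U : K' ⊆ closure U := by
    rw [hK']
    intro w hw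
    rw [mem_iUnion₂] at hw
    obtain ⟨z, hz, hw⟩ := hw
    exact subset_closure (hr1 z hz (sphere_subset_closedBall hw))
  obtain ⟨m, hm, hm2⟩ := exists_lower hG hK'c (fun w hw h0 => by
    have hwU := hK'U hw
    rw [hK', mem_iUnion₂] at hw
    obtain ⟨z, hz, hw⟩ := hw
    have h1 : w ∈ Z0 := (hmem0 w).2 ⟨hwU, h0⟩
    have h2 := mem_sphere.1 hw
    have hzw : z ≠ w := by
      rintro rfl
      rw [dist_self] at h2
      exact hr.ne h2
    have h3 := hr2 z hz w h1 hzw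
    rw [dist_comm] at h3
    linarith)
  refine ⟨m, hm, fun H hH hclose => ?_⟩
  rcases Z.eq_empty_or_nonempty with hemp | ⟨z1, hz1⟩
  · have : cnt U G = 0 := by
      rw [cnt_eq_sum hG (Z := Z) (fun z hz h0 => (hmem z).2 ⟨hz, h0⟩) (fun z hz => ((hmem z).1 hz).1), hemp,
        Finset.sum_empty]
    omega
  · have hHex : ∃ z, H z ≠ 0 := by
      obtain ⟨w, hw⟩ : (sphere z1 r).Nonempty := NormedSpace.sphere_nonempty.2 hr.le
      refine ⟨w, fun h0 => ?_⟩
      have hwK : w ∈ K' := by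
        rw [hK', mem_iUnion₂]
        exact ⟨z1, hz1, hw⟩
      have h1 := hclose w (hK'U hwK)
      rw [h0, sub_zero] at h1
      exact absurd (hm2 w hwK) (not_le.2 h1)
    have hd : ∀ z ∈ Z, ∀ w ∈ Z, z ≠ w → 2 * r < dist z w := fun z hz w hw => hr2 z hz w (hsub w hw)
    have e1 : ∑ z ∈ Z, nb G z r = cnt U G := (sum_nb hG hne hbd hr1 hd).2 fun w hw h0 =>
      ⟨w, (hmem w).2 ⟨hw, h0⟩, mem_ball_self hr⟩
    rw [← e1]
    refine le_trans (le_of_eq ?_) (sum_nb hH hHex hbd hr1 hd).1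
    refine Finset.sum_congr rfl fun z hz => ?_
    refine (rouche hG hH hr fun w hw => ?_).1
    have hwK : w ∈ K' := by
      rw [hK', mem_iUnion₂]
      exact ⟨z, hz, hw⟩
    have h1 := hm2 w hwK
    have h2 := hclose w (hK'U hwK)
    linarith

/-- **Rouché's theorem** for a bounded open set. -/
theorem rouche_open {A B : ℂ → ℂ} (hA : Differentiable ℂ A) (hB : Differentiable ℂ B) {U : Set ℂ} (hU : IsOpen U)
    (hbd : Bornology.IsBounded U) (hfn : (frontier U).Nonempty) (h : ∀ z ∈ frontier U, ‖B z‖ < ‖A z‖) :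
    cnt U (fun z => A z + B z) = cnt U A := by
  have hK : IsCompact (closure U) := hbd.isCompact_closure
  obtain ⟨M, hM⟩ := hK.exists_bound_of_continuousOn hB.continuous.continuousOn
  obtain ⟨M', hM'0, hM'⟩ : ∃ M' : ℝ, 0 < M' ∧ ∀ z ∈ closure U, ‖B z‖ ≤ M' :=
    ⟨max M 1, by positivity, fun z hz => (hM z hz).trans (le_max_left _ _)⟩
  have hcont : ContinuousOn (fun l : ℝ => cnt U (fun z => A z + l * B z)) (Icc 0 1) := by
    intro l0 hl0
    refine ContinuousAt.continuousWithinAt ?_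
    have hGd : Differentiable ℂ (fun z => A z + (l0 : ℂ) * B z) := hA.add (hB.const_mul _)
    have hfr : ∀ z ∈ frontier U, A z + (l0 : ℂ) * B z ≠ 0 := by
      intro z hz h0
      have h1 := h z hz
      have h2 : A z = -((l0 : ℂ) * B z) := eq_neg_of_add_eq_zero_left h0
      rw [h2, norm_neg, norm_mul, Complex.norm_real, Real.norm_eq_abs, abs_of_nonneg hl0.1] at h1
      have h3 : l0 * ‖B z‖ ≤ 1 * ‖B z‖ := mul_le_mul_of_nonneg_right hl0.2 (norm_nonneg _)
      linarith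
    obtain ⟨w, hw⟩ := hfn
    obtain ⟨m, hm, hst⟩ := cnt_stable hGd ⟨w, hfr w hw⟩ hU hbd hfr ⟨w, hw⟩
    have hev : ∀ᶠ l : ℝ in 𝓝 l0, cnt U (fun z => A z + l * B z) = cnt U (fun z => A z + (l0 : ℂ) * B z) := by
      have h1 : ∀ᶠ l : ℝ in 𝓝 l0, |l0 - l| < m / M' := by
        have h2 : Tendsto (fun l : ℝ => |l0 - l|) (𝓝 l0) (𝓝 |l0 - l0|) := by
          apply Continuous.tendsto
          fun_prop
        rw [sub_self, abs_zero] at h2
        exact h2.eventually_lt_const (by positivity)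
      filter_upwards [h1] with l hl
      refine hst _ (hA.add (hB.const_mul _)) fun z hz => ?_
      have e : A z + (l0 : ℂ) * B z - (A z + (l : ℂ) * B z) = ((l0 - l : ℝ) : ℂ) * B z := by
        push_cast
        ring
      rw [e, norm_mul, Complex.norm_real, Real.norm_eq_abs]
      calc |l0 - l| * ‖B z‖ ≤ |l0 - l| * M' := mul_le_mul_of_nonneg_left (hM' z hz) (abs_nonneg _)
        _ < m / M' * M' := mul_lt_mul_of_pos_right hl hM'0
        _ = m := by field_simp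
    exact (continuousAt_const (y := cnt U (fun z => A z + (l0 : ℂ) * B z))).congr (hev.mono fun l hl => hl.symm)
  have h1 := isPreconnected_Icc.constant hcont (x := 1) (y := 0) (by simp) (by simp)
  simp only [ofReal_one, one_mul, ofReal_zero, zero_mul, add_zero] at h1
  exact h1

end Pool.Agent.P8H74.SD
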