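import Mathlib
import Pool.Agent.P8H74.SD.Rou
import Pool.Agent.R838.TW.Gro

set_option autoImplicit false

/-!
# Most heights are good
-/

namespace Pool.Agent.P8H74.SD

open MeasureTheory Complex Filter Topology Metric Set
open Pool.Agent.R838.TW (Sy ncard_le)
open Pool.Agent.Y22.RX (S sum_le)
open scoped ComplexConjugate

/-- the bad heights in `[0, T]` at distance `d` -/
def BadH (Φ : ℂ → ℂ) (d T : ℝ) : Set ℝ :=
  {t | 0 ≤ t ∧ t ≤ T ∧ ∃ b, Φ b = 0 ∧ d ≤ |b.re| ∧ |t - b.im| < |b.re|}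

theorem good_ineq {Φ : ℂ → ℂ} {d T t : ℝ} (hd : 0 < d) (h0 : 0 ≤ t) (hT : t ≤ T) (ht : t ∉ BadH Φ d T) :
    ∀ b, Φ b = 0 → b.re ^ 2 < d ^ 2 + (t - b.im) ^ 2 := by
  intro b hb
  rcases lt_or_ge |b.re| d with h1 | h1
  · have h2 : b.re ^ 2 < d ^ 2 := by
      rw [← sq_abs]
      exact pow_lt_pow_left₀ h1 (abs_nonneg _) two_ne_zero
    have := sq_nonneg (t - b.im)
    linarith
  · have h2 : |b.re| ≤ |t - b.im| := by
      by_contra hlt
      push Not at hlt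
      exact ht ⟨h0, hT, b, hb, h1, hlt⟩
    have h3 : b.re ^ 2 ≤ (t - b.im) ^ 2 := by
      rw [← sq_abs, ← sq_abs (t - b.im)]
      exact pow_le_pow_left₀ (abs_nonneg _) h2 2
    have : 0 < d ^ 2 := by positivity
    linarith

theorem fin_S {Φ : ℂ → ℂ} (h : Sy Φ) {D : ℝ} (hD : ∀ b, Φ b = 0 → |b.re| ≤ D) (d T : ℝ) : (S Φ d T).Finite := by
  have hK : IsCompact (Icc (-D) D ×ℂ Icc 0 T) := isCompact_Icc.reProdIm isCompact_Icc
  refine (fin_zeros h.diff h.ne hK).subset ?_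
  rintro b ⟨h1, -, h2, h3⟩
  refine ⟨?_, h1⟩
  rw [mem_reProdIm]
  have := abs_le.1 (hD b h1)
  exact ⟨⟨this.1, this.2⟩, h2.le, h3⟩

/-- **The measure of the bad heights.** -/
theorem bad_meas {Φ : ℂ → ℂ} (h : Sy Φ) (hD : ∀ b, Φ b = 0 → |b.re| ≤ 1 / 2)
    (hdens : ∀ c : ℝ, c < 1 → ∃ C : ℝ, 0 < C ∧ ∀ d T : ℝ, 0 ≤ d → 2 ≤ T →
      (cnt (S Φ d T) Φ : ℝ) ≤ C * T ^ (1 - c * d) * Real.log T) {c : ℝ} (hc : c < 1) :
    ∃ C : ℝ, 0 < C ∧ ∀ d T : ℝ, 0 ≤ d → 2 ≤ T →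
      volume (BadH Φ d T) ≤ ENNReal.ofReal (C * T ^ (1 - c * d)) := by
  classical
  obtain ⟨c1, hc1, hcc1, hc11⟩ : ∃ c1 : ℝ, 0 < c1 ∧ c < c1 ∧ c1 < 1 := by
    refine ⟨max ((c + 1) / 2) (1 / 2), ?_, ?_, ?_⟩
    · exact lt_of_lt_of_le (by norm_num) (le_max_right _ _)
    · exact lt_of_lt_of_le (by linarith) (le_max_left _ _)
    · exact max_lt (by linarith) (by norm_num)
  obtain ⟨C, hC, hden⟩ := hdens c1 hc11
  have hgap : 0 < c1 - c := by linarith
  refine ⟨8 * C * (1 / (c1 - c) + 1 / c1) + 1, by positivity, fun d T hd hT => ?_⟩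
  have hT0 : 0 < T := by linarith
  have hT1 : 1 ≤ T := by linarith
  rcases lt_or_ge (1 / 2) d with hd2 | hd2
  · have h3 : BadH Φ d T = ∅ := by
      rw [Set.eq_empty_iff_forall_notMem]
      rintro t ⟨-, -, b, hb, h1, -⟩
      have := hD b hb
      linarith
    rw [h3, measure_empty]
    exact bot_le
  obtain ⟨L, hL⟩ : ∃ L : ℝ, L = Real.log T := ⟨_, rfl⟩
  have hL0 : 0 < L := by
    rw [hL]
    exact Real.log_pos (by linarith)
  obtain ⟨T', hT'⟩ : ∃ T' : ℝ, T' = 2 * T := ⟨_, rfl⟩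
  have hT'2 : 2 ≤ T' := by rw [hT']; linarith
  have hT'0 : 0 < T' := by linarith
  have hlogT'1 : Real.log T' ≤ 2 * L := by
    rw [hT', Real.log_mul (by norm_num) hT0.ne', hL]
    have : Real.log 2 ≤ Real.log T := Real.log_le_log (by norm_num) hT
    linarith
  have hlogT'2 : L ≤ Real.log T' := by
    rw [hL, hT']
    exact Real.log_le_log hT0 (by linarith)
  have hfin := fin_S h hD d T'
  obtain ⟨Z, hZ⟩ : ∃ Z : Finset ℂ, Z = hfin.toFinset := ⟨_, rfl⟩
  have hmem : ∀ b, b ∈ Z ↔ b ∈ S Φ d T' := fun b => by rw [hZ, Set.Finite.mem_toFinset]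
  have hcnt : ∀ u : ℝ, d ≤ u → ((Z.filter (fun b => u ≤ |b.re|)).card : ℝ) ≤
      (4 * C * T * L) * Real.exp (-((c1 * L) * u)) := by
    intro u hu
    have hu0 : 0 ≤ u := hd.trans hu
    have hf1 := fin_S h hD u T'
    have hf2 := hden u T' hu0 hT'2
    have h1 : (Z.filter (fun b => u ≤ |b.re|)).card ≤ (S Φ u T').ncard := by
      rw [← Set.ncard_coe_finset]
      refine Set.ncard_le_ncard ?_ hf1
      intro b hb
      rw [Finset.mem_coe, Finset.mem_filter, hmem] at hb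
      exact ⟨hb.1.1, hb.2, hb.1.2.2.1, hb.1.2.2.2⟩
    have h1' : (S Φ u T').ncard ≤ cnt (S Φ u T') Φ := ncard_le h.diff h.ne hf1 fun z hz => hz.1
    have h2 : (((Z.filter (fun b => u ≤ |b.re|)).card : ℕ) : ℝ) ≤ (cnt (S Φ u T') Φ : ℝ) := by
      exact_mod_cast h1.trans h1'
    refine h2.trans (hf2.trans ?_)
    have h3 : T' ^ (1 - c1 * u) = T' * Real.exp (-(c1 * u * Real.log T')) := by
      rw [Real.rpow_def_of_pos hT'0]
      have : Real.log T' * (1 - c1 * u) = Real.log T' + -(c1 * u * Real.log T') := by ring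
      rw [this, Real.exp_add, Real.exp_log hT'0]
    have h4 : Real.exp (-(c1 * u * Real.log T')) ≤ Real.exp (-((c1 * L) * u)) := by
      apply Real.exp_le_exp.mpr
      have := mul_le_mul_of_nonneg_left hlogT'2 (mul_nonneg hc1.le hu0)
      linarith
    have hlogn : 0 ≤ Real.log T' := hL0.le.trans hlogT'2
    calc C * T' ^ (1 - c1 * u) * Real.log T'
        = C * (T' * Real.exp (-(c1 * u * Real.log T'))) * Real.log T' := by rw [h3]
      _ ≤ C * (T' * Real.exp (-((c1 * L) * u))) * (2 * L) := by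
          gcongr
      _ = (4 * C * T * L) * Real.exp (-((c1 * L) * u)) := by rw [hT']; ring
  have hsum := sum_le Z (fun b => |b.re|) (h0 := d) (A := 4 * C * T * L) (a := c1 * L)
    (by positivity) hd (by positivity) (fun b hb => ((hmem b).mp hb).2.1) hcnt
  have hsub : BadH Φ d T ⊆ Icc 0 1 ∪ ⋃ b ∈ Z, Set.Icc (b.im - |b.re|) (b.im + |b.re|) := by
    rintro t ⟨ht0, htT, b, hb, hb1, hb2⟩
    rcases le_or_gt t 1 with ht1 | ht1
    · exact Or.inl ⟨ht0, ht1⟩
    · right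
      have h1 := hD b hb
      rw [abs_lt] at hb2
      refine Set.mem_biUnion (x := b) ?_ ⟨by linarith, by linarith⟩
      rw [Finset.mem_coe, hmem]
      refine ⟨hb, hb1, by linarith, ?_⟩
      rw [hT']
      linarith
  refine (measure_mono hsub).trans ((measure_union_le _ _).trans ?_)
  have h5 : volume (⋃ b ∈ Z, Set.Icc (b.im - |b.re|) (b.im + |b.re|)) ≤ ENNReal.ofReal (2 * ∑ b ∈ Z, |b.re|) := by
    refine (measure_biUnion_finset_le Z _).trans (le_of_eq ?_)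
    rw [Finset.mul_sum, ENNReal.ofReal_sum_of_nonneg (fun b _ => by positivity)]
    refine Finset.sum_congr rfl fun b _ => ?_
    rw [Real.volume_Icc]
    congr 1
    ring
  have h6 : volume (Icc (0 : ℝ) 1) = ENNReal.ofReal 1 := by
    rw [Real.volume_Icc, sub_zero]
  rw [h6]
  refine (add_le_add le_rfl h5).trans ?_
  have hsn : 0 ≤ ∑ b ∈ Z, |b.re| := Finset.sum_nonneg fun _ _ => abs_nonneg _
  rw [← ENNReal.ofReal_add zero_le_one (by positivity)]
  refine ENNReal.ofReal_le_ofReal ?_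
  -- numbers
  obtain ⟨r, hr⟩ : ∃ r : ℝ, r = d * L := ⟨_, rfl⟩
  have hr0 : 0 ≤ r := by rw [hr]; positivity
  have hpow : T ^ (1 - c * d) = T * Real.exp (-(c * r)) := by
    rw [Real.rpow_def_of_pos hT0, ← hL, hr]
    have : L * (1 - c * d) = L + -(c * (d * L)) := by ring
    rw [this, Real.exp_add, hL, Real.exp_log hT0]
  have h7 : 4 * C * T * L * Real.exp (-(c1 * L * d)) * (d + 1 / (c1 * L)) =
      4 * C * T * Real.exp (-(c1 * r)) * (r + 1 / c1) := by
    rw [hr]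
    field_simp
  rw [h7] at hsum
  have h8 : r ≤ 1 / (c1 - c) * Real.exp ((c1 - c) * r) := by
    have := Real.add_one_le_exp ((c1 - c) * r)
    rw [div_mul_eq_mul_div, one_mul, le_div_iff₀ hgap]
    linarith
  have h9 : 1 / c1 ≤ 1 / c1 * Real.exp ((c1 - c) * r) := by
    have : 1 ≤ Real.exp ((c1 - c) * r) := Real.one_le_exp (by positivity)
    exact le_mul_of_one_le_right (by positivity) this
  have h10 : Real.exp ((c1 - c) * r) * Real.exp (-(c1 * r)) = Real.exp (-(c * r)) := by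
    rw [← Real.exp_add]
    congr 1
    ring
  have h11 : 4 * C * T * Real.exp (-(c1 * r)) * (r + 1 / c1) ≤
      4 * C * T * ((1 / (c1 - c) + 1 / c1) * Real.exp (-(c * r))) := by
    have h12 : (r + 1 / c1) ≤ (1 / (c1 - c) + 1 / c1) * Real.exp ((c1 - c) * r) := by
      rw [add_mul]
      exact add_le_add h8 h9
    calc 4 * C * T * Real.exp (-(c1 * r)) * (r + 1 / c1)
        ≤ 4 * C * T * Real.exp (-(c1 * r)) * ((1 / (c1 - c) + 1 / c1) * Real.exp ((c1 - c) * r)) := by gcongr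
      _ = 4 * C * T * ((1 / (c1 - c) + 1 / c1) * (Real.exp ((c1 - c) * r) * Real.exp (-(c1 * r)))) := by ring
      _ = _ := by rw [h10]
  have h13 : 1 ≤ T ^ (1 - c * d) := by
    refine Real.one_le_rpow hT1 ?_
    have : c * d ≤ 1 * d := mul_le_mul_of_nonneg_right hc.le hd
    linarith
  have h14 : 2 * ∑ b ∈ Z, |b.re| ≤ 8 * C * (1 / (c1 - c) + 1 / c1) * T ^ (1 - c * d) := by
    rw [hpow]
    calc 2 * ∑ b ∈ Z, |b.re| ≤ 2 * (4 * C * T * ((1 / (c1 - c) + 1 / c1) * Real.exp (-(c * r)))) := by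
          linarith [hsum.trans h11]
      _ = _ := by ring
  calc 1 + 2 * ∑ b ∈ Z, |b.re| ≤ 1 * T ^ (1 - c * d) + 8 * C * (1 / (c1 - c) + 1 / c1) * T ^ (1 - c * d) := by
        linarith
    _ = _ := by ring

/-- Good heights exist. -/
theorem exists_good {Φ : ℂ → ℂ} (h : Sy Φ) (hD : ∀ b, Φ b = 0 → |b.re| ≤ 1 / 2)
    (hdens : ∀ c : ℝ, c < 1 → ∃ C : ℝ, 0 < C ∧ ∀ d T : ℝ, 0 ≤ d → 2 ≤ T →
      (cnt (S Φ d T) Φ : ℝ) ≤ C * T ^ (1 - c * d) * Real.log T) :
    ∃ K : ℝ, 0 < K ∧ ∀ d T : ℝ, 0 < d → 2 ≤ T → K ≤ d * Real.log T →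
      ∃ t, T < t ∧ t < 2 * T ∧ ∀ b, Φ b = 0 → b.re ^ 2 < d ^ 2 + (t - b.im) ^ 2 := by
  obtain ⟨C, hC, h1⟩ := bad_meas h hD hdens (c := 1 / 2) (by norm_num)
  obtain ⟨K, hK⟩ : ∃ K : ℝ, K = 2 * (Real.log (2 * C + 1) + 1) := ⟨_, rfl⟩
  have hlogC : 0 < Real.log (2 * C + 1) := Real.log_pos (by linarith)
  refine ⟨K, by rw [hK]; positivity, fun d T hd hT hKd => ?_⟩
  have hT0 : 0 < T := by linarith
  have h2 := h1 d (2 * T) hd.le (by linarith)
  have h3 : C * (2 * T) ^ (1 - 1 / 2 * d) < T := by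
    have e1 : (2 * T) ^ (1 - 1 / 2 * d) = 2 * T * Real.exp (-(1 / 2 * d * Real.log (2 * T))) := by
      rw [Real.rpow_def_of_pos (by positivity)]
      have : Real.log (2 * T) * (1 - 1 / 2 * d) = Real.log (2 * T) + -(1 / 2 * d * Real.log (2 * T)) := by ring
      rw [this, Real.exp_add, Real.exp_log (by positivity)]
    have e2 : Real.log (2 * C + 1) < 1 / 2 * d * Real.log (2 * T) := by
      have h4 : Real.log T ≤ Real.log (2 * T) := Real.log_le_log hT0 (by linarith)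
      have h5 : d * Real.log T ≤ d * Real.log (2 * T) := mul_le_mul_of_nonneg_left h4 hd.le
      rw [hK] at hKd
      linarith
    have e3 : Real.exp (-(1 / 2 * d * Real.log (2 * T))) < Real.exp (-Real.log (2 * C + 1)) := by
      apply Real.exp_lt_exp.2
      linarith
    have e4 : Real.exp (-Real.log (2 * C + 1)) = (2 * C + 1)⁻¹ := by
      rw [Real.exp_neg, Real.exp_log (by linarith)]
    rw [e4] at e3
    rw [e1]
    calc C * (2 * T * Real.exp (-(1 / 2 * d * Real.log (2 * T)))) < C * (2 * T * (2 * C + 1)⁻¹) := by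
          gcongr
      _ = T * (2 * C * (2 * C + 1)⁻¹) := by ring
      _ ≤ T * 1 := by
          refine mul_le_mul_of_nonneg_left ?_ hT0.le
          rw [← div_eq_mul_inv, div_le_one (by linarith)]
          linarith
      _ = T := mul_one T
  have h4 : volume (BadH Φ d (2 * T)) < volume (Ioo T (2 * T)) := by
    rw [Real.volume_Ioo]
    refine lt_of_le_of_lt h2 ?_
    rw [ENNReal.ofReal_lt_ofReal_iff (by linarith)]
    linarith
  obtain ⟨t, ht1, ht2⟩ : ∃ t ∈ Ioo T (2 * T), t ∉ BadH Φ d (2 * T) := by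
    by_contra hcon
    push Not at hcon
    exact absurd (measure_mono (μ := volume) (show Ioo T (2 * T) ⊆ BadH Φ d (2 * T) from hcon)) (not_le.2 h4)
  exact ⟨t, ht1.1, ht1.2, good_ineq hd (by linarith [ht1.1]) ht1.2.le ht2⟩

end Pool.Agent.P8H74.SD
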