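import Pool.Agent.P8H74.SD.Rot
import Pool.Agent.R838.TW.Cnt
import Pool.Agent.Y771.NF.Dn

set_option autoImplicit false

/-!
# The hypotheses for completed L-functions of newforms
-/

namespace Pool.Agent.P8H74.SD

open MeasureTheory Complex Filter Topology Metric Set
open UpperHalfPlane hiding I
open MatrixGroups CongruenceSubgroup
open Pool.Agent.R838.TW (PL)
open Pool.Agent.Y22.RX (S)
open Pool.Agent.Y671.GL
open Pool.Agent.Y771.NF
open scoped ComplexConjugate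

theorem hyp_of_pl {κ : ℝ} {X : ℂ → ℂ} (hκ : 1 / 2 ≤ κ) (h : PL κ X) : Hyp X where
  sy := h.sy
  hz := h.zero hκ
  strip := h.strip
  dens := fun c hc => by
    obtain ⟨C, hC, h1⟩ := h.dens_S hc
    exact ⟨C, hC, fun d T hd hT => h1 d T hd hT⟩
  cf := by
    obtain ⟨H, Z, hG⟩ := h.gy
    exact ⟨κ, H, Z, hG.cg.cf⟩

variable {N : ℕ} [NeZero N] {k : ℕ} {f : CuspForm (Gamma0 N : Subgroup (GL (Fin 2) ℝ)) (k : ℤ)} {ε : ℝ}

/-- newforms with real coefficients -/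
theorem hyp_newf (hk : 1 ≤ k) (hf : W388.IsNewf N k f ε) (G : ℂ → ℂ) (hG : ∀ z, G z = Lam f ((k : ℂ) / 2 + I * z)) :
    ∃ (X : ℂ → ℂ) (v : ℂ), Hyp X ∧ v ≠ 0 ∧ ∀ z, G z = v * X (I * z) := by
  obtain ⟨u, hu, hue⟩ := exists_unit hf
  obtain ⟨Z, hFE, hL⟩ := exists_Z hk hf
  have hD := ldata hk hf hu hue hFE hL
  have hF := frm_newf hk hf
  have hlfn := Pool.Agent.Y24.GL.lfn_of hk hFE hF conj_lm hL
  have hpl := Pool.Agent.R838.TW.pl_of hk hF hL hD hlfn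
  refine ⟨Xf f u, u⁻¹, hyp_of_pl (by norm_num) hpl, inv_ne_zero hu, fun z => ?_⟩
  rw [hG, Xf, inv_mul_cancel_left₀ hu]

end Pool.Agent.P8H74.SD
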