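import Mathlib
import Pool.Agent.R838.TW.Gro

set_option autoImplicit false

/-!
# Moduli at points symmetric about a vertical line

For entire functions with `Φ (-(conj z)) = conj (Φ z)` of order at most `3/2`.
-/

namespace Pool.Agent.P8H74.SD

open Complex Filter Topology Metric Set Polynomial
open Pool.Agent.R838.TW (Sy)
open Pool.Agent.Y22.LM (q q_nonneg norm_eval_pow4)
open scoped ComplexConjugate

theorem q_shift {β y x d : ℝ} (hx : 0 ≤ x) (hd : 0 ≤ d) (h : β ^ 2 ≤ x ^ 2 + d ^ 2 + y ^ 2) :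
    q β y (x - d) ≤ q β y (x + d) := by
  unfold q
  have h1 : 0 ≤ 8 * x * d * (x ^ 2 + d ^ 2 + y ^ 2 - β ^ 2) := by
    have : 0 ≤ x ^ 2 + d ^ 2 + y ^ 2 - β ^ 2 := by linarith
    positivity
  nlinarith

theorem poly_shift {p : ℂ[X]} {t x d : ℝ}
    (hsym : ∀ h : ℝ, ‖p.eval (-h + t * I : ℂ)‖ = ‖p.eval (h + t * I : ℂ)‖) (hx : 0 ≤ x) (hd : 0 ≤ d)
    (h : ∀ b ∈ p.roots, b.re ^ 2 ≤ x ^ 2 + d ^ 2 + (t - b.im) ^ 2) :
    ‖p.eval (((x - d : ℝ) : ℂ) + t * I)‖ ≤ ‖p.eval (((x + d : ℝ) : ℂ) + t * I)‖ := by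
  have h4 : ‖p.eval (((x - d : ℝ) : ℂ) + t * I)‖ ^ 4 ≤ ‖p.eval (((x + d : ℝ) : ℂ) + t * I)‖ ^ 4 := by
    rw [norm_eval_pow4 hsym, norm_eval_pow4 hsym]
    refine mul_le_mul_of_nonneg_left ?_ (by positivity)
    exact Multiset.prod_map_le_prod_map₀ _ _ (fun b _ => q_nonneg _ _ _) fun b hb => q_shift hx hd (h b hb)
  exact le_of_pow_le_pow_left₀ (by norm_num) (norm_nonneg _) h4

/-- The weak inequality. -/
theorem le_shift {Φ : ℂ → ℂ} (h : Sy Φ) {s : ℂ} {d : ℝ} (hs : 0 ≤ s.re) (hd : 0 ≤ d)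
    (hZ : ∀ b : ℂ, Φ b = 0 → b.re ^ 2 ≤ s.re ^ 2 + d ^ 2 + (s.im - b.im) ^ 2) :
    ‖Φ (s - d)‖ ≤ ‖Φ (s + d)‖ := by
  obtain ⟨R, hR1, hR2, hR3⟩ := h.app
  have e1 : s - d = ((s.re - d : ℝ) : ℂ) + s.im * I := by
    apply Complex.ext <;> simp
  have e2 : s + d = ((s.re + d : ℝ) : ℂ) + s.im * I := by
    apply Complex.ext <;> simp
  have hN : ∀ N, ‖(R N).eval (s - d)‖ ≤ ‖(R N).eval (s + d)‖ := by
    intro N
    rw [e1, e2]
    refine poly_shift (fun x => hR3 N x _) hs hd fun b hb => ?_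
    rcases hR1 N b (Polynomial.isRoot_of_mem_roots hb) with h6 | h6
    · exact hZ b h6
    · rw [h6, zero_pow two_ne_zero]
      positivity
  have h3 : ‖Φ (s - d) * Φ (s - d)‖ ≤ ‖Φ (s + d) * Φ (s + d)‖ :=
    le_of_tendsto_of_tendsto' (hR2 _).norm (hR2 _).norm hN
  rw [norm_mul, norm_mul] at h3
  exact abs_le_of_sq_le_sq' (by nlinarith) (norm_nonneg _) |>.2

theorem sym_norm {Φ : ℂ → ℂ} (h : Sy Φ) {s : ℂ} (hs : s.re = 0) (d : ℝ) : ‖Φ (s - d)‖ = ‖Φ (s + d)‖ := by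
  have e : s - d = -(conj (s + d)) := by
    apply Complex.ext
    · simp [hs]
    · simp
  rw [e, h.symm, Complex.norm_conj]

/-- finitely many zeros matter -/
theorem near_cond {Φ : ℂ → ℂ} (h : Sy Φ) {D : ℝ} (hD : ∀ b, Φ b = 0 → |b.re| ≤ D) {s0 : ℂ} {d : ℝ}
    (hZ : ∀ b : ℂ, Φ b = 0 → b.re ^ 2 < s0.re ^ 2 + d ^ 2 + (s0.im - b.im) ^ 2) :
    ∀ᶠ p : ℂ × ℝ in 𝓝 (s0, d), ∀ b : ℂ, Φ b = 0 → b.re ^ 2 < p.1.re ^ 2 + p.2 ^ 2 + (p.1.im - b.im) ^ 2 := by
  obtain ⟨D', hD'0, hD'⟩ : ∃ D' : ℝ, 0 < D' ∧ ∀ b, Φ b = 0 → |b.re| ≤ D' :=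
    ⟨max D 1, by positivity, fun b hb => (hD b hb).trans (le_max_left _ _)⟩
  have hK : IsCompact (Icc (-D') D' ×ℂ Icc (s0.im - (D' + 2)) (s0.im + (D' + 2))) := isCompact_Icc.reProdIm isCompact_Icc
  have hfin : {z | z ∈ (Icc (-D') D' ×ℂ Icc (s0.im - (D' + 2)) (s0.im + (D' + 2))) ∧ Φ z = 0}.Finite := by
    by_contra hinf
    have hinf' : {z | z ∈ (Icc (-D') D' ×ℂ Icc (s0.im - (D' + 2)) (s0.im + (D' + 2))) ∧ Φ z = 0}.Infinite := hinf
    obtain ⟨x, hx, hacc⟩ := hinf'.exists_accPt_of_subset_isCompact hK (fun z hz => hz.1)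
    have hfr : ∃ᶠ z in 𝓝[≠] x, Φ z = 0 := (accPt_iff_frequently_nhdsNE.1 hacc).mono fun z hz => hz.2
    obtain ⟨z0, hz0⟩ := h.ne
    exact hz0 (AnalyticOnNhd.eqOn_zero_of_preconnected_of_frequently_eq_zero
      (fun z _ => h.diff.analyticAt z) isPreconnected_univ (mem_univ x) hfr (mem_univ z0))
  have h1 : ∀ᶠ p : ℂ × ℝ in 𝓝 (s0, d), ∀ b ∈ hfin.toFinset, b.re ^ 2 < p.1.re ^ 2 + p.2 ^ 2 + (p.1.im - b.im) ^ 2 := by
    refine (Filter.eventually_all_finset _).2 fun b hb => ?_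
    rw [Set.Finite.mem_toFinset] at hb
    have hc : Continuous (fun p : ℂ × ℝ => p.1.re ^ 2 + p.2 ^ 2 + (p.1.im - b.im) ^ 2) := by
      have c1 : Continuous (fun p : ℂ × ℝ => p.1.re) := Complex.continuous_re.comp continuous_fst
      have c2 : Continuous (fun p : ℂ × ℝ => p.1.im) := Complex.continuous_im.comp continuous_fst
      fun_prop
    exact (hc.tendsto (s0, d)).eventually_const_lt (hZ b hb.2)
  have h2 : ∀ᶠ p : ℂ × ℝ in 𝓝 (s0, d), |p.1.im - s0.im| < 1 := by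
    have hc : Continuous (fun p : ℂ × ℝ => |p.1.im - s0.im|) := by
      have c2 : Continuous (fun p : ℂ × ℝ => p.1.im) := Complex.continuous_im.comp continuous_fst
      fun_prop
    have := (hc.tendsto (s0, d)).eventually_lt_const (u := 1) (by simp)
    exact this
  filter_upwards [h1, h2] with p hp1 hp2 b hb
  by_cases hbK : |s0.im - b.im| ≤ D' + 2
  · refine hp1 b ?_
    rw [Set.Finite.mem_toFinset]
    refine ⟨?_, hb⟩
    rw [mem_reProdIm]
    rw [abs_le] at hbK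
    have h3 := abs_le.1 (hD' b hb)
    exact ⟨⟨h3.1, h3.2⟩, by linarith, by linarith⟩
  · push Not at hbK
    have h3 : D' + 1 ≤ |p.1.im - b.im| := by
      have h4 : |s0.im - b.im| ≤ |p.1.im - b.im| + |p.1.im - s0.im| := by
        have := abs_sub_le s0.im p.1.im b.im
        rw [abs_sub_comm s0.im p.1.im] at this
        linarith
      linarith
    have h5 : b.re ^ 2 ≤ D' ^ 2 := by
      rw [← sq_abs]
      exact pow_le_pow_left₀ (abs_nonneg _) (hD' b hb) 2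
    have h6 : (D' + 1) ^ 2 ≤ (p.1.im - b.im) ^ 2 := by
      rw [← sq_abs (p.1.im - b.im)]
      exact pow_le_pow_left₀ (by linarith) h3 2
    nlinarith [sq_nonneg p.1.re, sq_nonneg p.2]

theorem no_period {Φ : ℂ → ℂ} {D : ℝ} (hD : ∀ b, Φ b = 0 → |b.re| ≤ D) (hz : ∃ z, Φ z = 0) {d : ℝ} (hd : 0 < d)
    (h : ∀ z, Φ z = 0 → Φ (z + d) = 0) : False := by
  obtain ⟨z, hz⟩ := hz
  have h1 : ∀ n : ℕ, Φ (z + n * d) = 0 := by
    intro n
    induction n with
    | zero => simpa using hz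
    | succ n ih =>
      have := h _ ih
      rw [show z + ((n + 1 : ℕ) : ℂ) * d = z + n * d + d by push_cast; ring]
      exact this
  obtain ⟨n, hn⟩ := exists_nat_gt ((D - z.re) / d)
  have h2 := hD _ (h1 n)
  have h3 : (z + n * d : ℂ).re = z.re + n * d := by simp
  rw [h3] at h2
  have h4 := (le_abs_self _).trans h2
  rw [div_lt_iff₀ hd] at hn
  linarith

/-- **The strict inequality.** -/
theorem lt_shift {Φ : ℂ → ℂ} (h : Sy Φ) (hz : ∃ z, Φ z = 0) {D : ℝ} (hD : ∀ b, Φ b = 0 → |b.re| ≤ D) {s : ℂ} {d : ℝ}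
    (hs : 0 < s.re) (hd : 0 < d)
    (hZ : ∀ b : ℂ, Φ b = 0 → b.re ^ 2 < s.re ^ 2 + d ^ 2 + (s.im - b.im) ^ 2) :
    ‖Φ (s - d)‖ < ‖Φ (s + d)‖ := by
  have hev : ∀ᶠ w in 𝓝 s, ‖Φ (w - d)‖ ≤ ‖Φ (w + d)‖ := by
    have h1 : Tendsto (fun w : ℂ => (w, d)) (𝓝 s) (𝓝 (s, d)) := by
      apply Continuous.tendsto
      fun_prop
    have h2 := h1.eventually (near_cond h hD hZ)
    have h3 : ∀ᶠ w : ℂ in 𝓝 s, 0 < w.re := (Complex.continuous_re.tendsto s).eventually_const_lt hs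
    filter_upwards [h2, h3] with w hw1 hw2
    exact le_shift h hw2.le hd.le fun b hb => (hw1 b hb).le
  refine lt_of_le_of_ne hev.self_of_nhds fun heq => ?_
  have hA : Φ (s + d) ≠ 0 := by
    intro h0
    have h1 := hZ _ h0
    have e1 : (s + (d : ℂ)).re = s.re + d := by simp
    have e2 : (s + (d : ℂ)).im = s.im := by simp
    rw [e1, e2] at h1
    nlinarith [mul_pos hs hd]
  have hΦd := h.diff
  have hcont : ContinuousAt (fun w : ℂ => Φ (w + d)) s := (hΦd.comp (by fun_prop : Differentiable ℂ fun w : ℂ => w + d)).continuous.continuousAt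
  have hAev : ∀ᶠ w in 𝓝 s, Φ (w + d) ≠ 0 := hcont.eventually_ne hA
  have hQd : ∀ᶠ w in 𝓝 s, DifferentiableAt ℂ (fun w : ℂ => Φ (w - d) / Φ (w + d)) w := by
    filter_upwards [hAev] with w hw
    exact ((hΦd.comp (by fun_prop : Differentiable ℂ fun w : ℂ => w - d)) w).div
      ((hΦd.comp (by fun_prop : Differentiable ℂ fun w : ℂ => w + d)) w) hw
  have hQs : ‖Φ (s - d) / Φ (s + d)‖ = 1 := by
    rw [norm_div, heq, div_self (norm_ne_zero_iff.2 hA)]
  have hmax : IsLocalMax (norm ∘ fun w : ℂ => Φ (w - d) / Φ (w + d)) s := by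
    filter_upwards [hev, hAev] with w hw1 hw2
    rw [Function.comp_apply, Function.comp_apply, hQs, norm_div, div_le_one (norm_pos_iff.2 hw2)]
    exact hw1
  have hconst := Complex.eventually_eq_of_isLocalMax_norm hQd hmax
  obtain ⟨q0, hq0⟩ : ∃ q0 : ℂ, q0 = Φ (s - d) / Φ (s + d) := ⟨_, rfl⟩
  have hq0n : q0 ≠ 0 := by
    intro h0
    rw [← hq0, h0, norm_zero] at hQs
    exact zero_ne_one hQs
  have hid : ∀ w, Φ (w - d) = q0 * Φ (w + d) := by
    have e1 : AnalyticOnNhd ℂ (fun w : ℂ => Φ (w - d)) univ := fun w _ =>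
      (hΦd.comp (by fun_prop : Differentiable ℂ fun w : ℂ => w - d)).analyticAt w
    have e2 : AnalyticOnNhd ℂ (fun w : ℂ => q0 * Φ (w + d)) univ := fun w _ =>
      ((hΦd.comp (by fun_prop : Differentiable ℂ fun w : ℂ => w + d)).const_mul q0).analyticAt w
    have e3 : (fun w : ℂ => Φ (w - d)) =ᶠ[𝓝 s] (fun w : ℂ => q0 * Φ (w + d)) := by
      filter_upwards [hconst, hAev] with w hw1 hw2
      rw [← hq0] at hw1
      rw [← hw1]
      field_simp
    have := e1.eqOn_of_preconnected_of_eventuallyEq e2 isPreconnected_univ (mem_univ s) e3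
    exact fun w => this (mem_univ w)
  refine no_period hD hz (d := 2 * d) (by linarith) fun z hz0 => ?_
  have h1 := hid (z + d)
  rw [add_sub_cancel_right, hz0] at h1
  have h2 := (mul_eq_zero.1 h1.symm).resolve_left hq0n
  rw [show z + ((2 * d : ℝ) : ℂ) = z + d + d by push_cast; ring]
  exact h2

/-- the difference -/
noncomputable def FF (Φ : ℂ → ℂ) (d : ℝ) (w : ℂ) (s : ℂ) : ℂ := Φ (s + d) - w * Φ (s - d)

theorem FF_diff {Φ : ℂ → ℂ} (h : Differentiable ℂ Φ) (d : ℝ) (w : ℂ) : Differentiable ℂ (FF Φ d w) := by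
  unfold FF
  have e1 : Differentiable ℂ (fun s : ℂ => Φ (s + d)) := h.comp (by fun_prop)
  have e2 : Differentiable ℂ (fun s : ℂ => Φ (s - d)) := h.comp (by fun_prop)
  exact e1.sub (e2.const_mul w)

theorem FF_symm {Φ : ℂ → ℂ} (h : Sy Φ) (d : ℝ) {w : ℂ} (hw : ‖w‖ = 1) (s : ℂ) :
    FF Φ d w (-(conj s)) = -w * conj (FF Φ d w s) := by
  unfold FF
  have e1 : -(conj s) + (d : ℂ) = -(conj (s - d)) := by
    rw [map_sub, Complex.conj_ofReal]; ring
  have e2 : -(conj s) - (d : ℂ) = -(conj (s + d)) := by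
    rw [map_add, Complex.conj_ofReal]; ring
  have hww : w * conj w = 1 := by
    rw [Complex.mul_conj, Complex.normSq_eq_norm_sq, hw]
    norm_num
  rw [e1, e2, h.symm, h.symm, map_sub, map_mul]
  linear_combination (-(conj (Φ (s - d)))) * hww

/-- no zeros to the right at good points -/
theorem FF_ne {Φ : ℂ → ℂ} (h : Sy Φ) (hz : ∃ z, Φ z = 0) {D : ℝ} (hD : ∀ b, Φ b = 0 → |b.re| ≤ D) {s : ℂ} {d : ℝ}
    (hs : 0 < s.re) (hd : 0 < d) {w : ℂ} (hw : ‖w‖ = 1)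
    (hZ : ∀ b : ℂ, Φ b = 0 → b.re ^ 2 < s.re ^ 2 + d ^ 2 + (s.im - b.im) ^ 2) : FF Φ d w s ≠ 0 := by
  intro h0
  unfold FF at h0
  have h1 := lt_shift h hz hD hs hd hZ
  rw [sub_eq_zero] at h0
  rw [h0, norm_mul, hw, one_mul] at h1
  exact lt_irrefl _ h1

/-- no zeros off the line at good heights -/
theorem FF_ne' {Φ : ℂ → ℂ} (h : Sy Φ) (hz : ∃ z, Φ z = 0) {D : ℝ} (hD : ∀ b, Φ b = 0 → |b.re| ≤ D) {s : ℂ} {d : ℝ}
    (hs : s.re ≠ 0) (hd : 0 < d) {w : ℂ} (hw : ‖w‖ = 1)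
    (hZ : ∀ b : ℂ, Φ b = 0 → b.re ^ 2 < s.re ^ 2 + d ^ 2 + (s.im - b.im) ^ 2) : FF Φ d w s ≠ 0 := by
  rcases lt_or_gt_of_ne hs with h1 | h1
  · intro h0
    refine FF_ne h hz hD (s := -(conj s)) (by simpa using h1) hd hw ?_ ?_
    · simpa using hZ
    · rw [FF_symm h d hw, h0, map_zero, mul_zero]
  · exact FF_ne h hz hD h1 hd hw hZ

/-- **The criterion at each `d`.** -/
theorem crit {Φ : ℂ → ℂ} (h : Sy Φ) (hz : ∃ z, Φ z = 0) {D : ℝ} (hD : ∀ b, Φ b = 0 → |b.re| ≤ D) {d : ℝ}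
    (hd : 0 < d) : (∀ w : ℂ, ‖w‖ = 1 → ∀ s, FF Φ d w s = 0 → s.re = 0) ↔ ∀ b, Φ b = 0 → |b.re| ≤ d := by
  constructor
  · intro h1
    have hright : ∀ b, Φ b = 0 → b.re ≤ d := by
      intro b hb
      by_contra hlt
      push Not at hlt
      obtain ⟨g, hg⟩ : ∃ g : ℝ → ℝ, g = fun x : ℝ => ‖Φ (((b - d) + (x : ℂ)) + d)‖ - ‖Φ (((b - d) + (x : ℂ)) - d)‖ :=
        ⟨_, rfl⟩
      have hgc : Continuous g := by
        rw [hg]
        have := h.diff.continuous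
        fun_prop
      have hg0 : g 0 ≤ 0 := by
        rw [hg]
        simp [hb]
      obtain ⟨X, hX0, hX1⟩ : ∃ X : ℝ, 0 ≤ X ∧ 0 ≤ g X := by
        refine ⟨|D| + 1, by positivity, ?_⟩
        rw [hg]
        simp only
        rw [sub_nonneg]
        have hre : (b - (d : ℂ) + ((|D| + 1 : ℝ) : ℂ)).re = b.re - d + (|D| + 1) := by simp
        refine le_shift h ?_ hd.le fun b' hb' => ?_
        · rw [hre]
          have := abs_nonneg D
          linarith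
        · have h2 : |b'.re| ≤ |D| := (hD b' hb').trans (le_abs_self D)
          have h3 : b'.re ^ 2 ≤ |D| ^ 2 := by
            rw [← sq_abs]
            exact pow_le_pow_left₀ (abs_nonneg _) h2 2
          have h4 : |D| ^ 2 ≤ (b - (d : ℂ) + ((|D| + 1 : ℝ) : ℂ)).re ^ 2 := by
            rw [hre]
            exact pow_le_pow_left₀ (abs_nonneg _) (by linarith) 2
          have := sq_nonneg d
          have := sq_nonneg ((b - (d : ℂ) + ((|D| + 1 : ℝ) : ℂ)).im - b'.im)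
          linarith
      obtain ⟨x, hx, hgx⟩ := intermediate_value_Icc hX0 hgc.continuousOn ⟨hg0, hX1⟩
      rw [hg] at hgx
      simp only at hgx
      rw [sub_eq_zero] at hgx
      obtain ⟨s, hs⟩ : ∃ s : ℂ, s = b - d + x := ⟨_, rfl⟩
      rw [← hs] at hgx
      have hsre : 0 < s.re := by
        rw [hs]
        have := hx.1
        simp
        linarith
      by_cases hB : Φ (s - d) = 0
      · have hA : Φ (s + d) = 0 := by
          rw [hB, norm_zero, norm_eq_zero] at hgx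
          exact hgx
        have := h1 1 (by simp) s (by unfold FF; rw [hA, hB]; ring)
        linarith
      · have hw : ‖Φ (s + d) / Φ (s - d)‖ = 1 := by
          rw [norm_div, hgx, div_self (norm_ne_zero_iff.2 hB)]
        have := h1 _ hw s (by unfold FF; rw [div_mul_cancel₀ _ hB, sub_self])
        linarith
    intro b hb
    rw [abs_le]
    refine ⟨?_, hright b hb⟩
    have h2 := hright (-(conj b)) (by rw [h.symm, hb, map_zero])
    have h3 : (-(conj b)).re = -b.re := by simp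
    linarith
  · intro h1 w hw s hs
    by_contra hne
    refine FF_ne' h hz hD hne hd hw (fun b hb => ?_) hs
    have h2 : b.re ^ 2 ≤ d ^ 2 := by
      rw [← sq_abs]
      exact pow_le_pow_left₀ (abs_nonneg _) (h1 b hb) 2
    have h3 : 0 < s.re ^ 2 := by positivity
    have := sq_nonneg (s.im - b.im)
    linarith

end Pool.Agent.P8H74.SD
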