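import Mathlib
import Pool.Agent.P8H74.SD.Rou
import Pool.Agent.P8H74.SD.Ineq

set_option autoImplicit false

/-!
# The zeros of the differences between two good heights
-/

namespace Pool.Agent.P8H74.SD

open Complex Filter Topology Metric Set
open Pool.Agent.R838.TW (Sy)
open scoped ComplexConjugate

theorem cnt_congr {f : ℂ → ℂ} (hf : Differentiable ℂ f) {U V : Set ℂ} (h : ∀ z, f z = 0 → (z ∈ U ↔ z ∈ V)) :
    cnt U f = cnt V f := by
  unfold cnt
  refine finsum_mem_inter_support_eq _ _ _ ?_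
  ext z
  constructor
  · rintro ⟨h1, h2⟩
    have h3 : f z = 0 := by
      by_contra h5
      exact h2 (ord_zero hf h5)
    exact ⟨(h z h3).1 h1, h2⟩
  · rintro ⟨h1, h2⟩
    have h3 : f z = 0 := by
      by_contra h5
      exact h2 (ord_zero hf h5)
    exact ⟨(h z h3).2 h1, h2⟩

theorem ord_shift {f : ℂ → ℂ} (c z : ℂ) :
    analyticOrderNatAt (fun s => f (s + c)) z = analyticOrderNatAt f (z + c) := by
  unfold analyticOrderNatAt
  have h1 : AnalyticAt ℂ (fun s : ℂ => s + c) z := by fun_prop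
  have h2 : deriv (fun s : ℂ => s + c) z ≠ 0 := by
    rw [deriv_add_const, deriv_id'']
    exact one_ne_zero
  have h3 := analyticOrderAt_comp_of_deriv_ne_zero (f := f) h1 h2
  have h4 : (f ∘ fun s : ℂ => s + c) = fun s => f (s + c) := rfl
  rw [h4] at h3
  rw [h3]

theorem cnt_shift {f : ℂ → ℂ} (c : ℂ) (U : Set ℂ) : cnt U (fun s => f (s + c)) = cnt ((fun s => s + c) '' U) f := by
  unfold cnt
  rw [finsum_mem_image (fun a _ b _ hab => add_right_cancel hab)]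
  exact finsum_mem_congr rfl fun z _ => ord_shift c z

/-- zeros in a window -/
theorem fin_window {Φ : ℂ → ℂ} (h : Sy Φ) {D : ℝ} (hD : ∀ b, Φ b = 0 → |b.re| ≤ D) (t1 t2 : ℝ) :
    {b | Φ b = 0 ∧ t1 ≤ b.im ∧ b.im ≤ t2}.Finite := by
  have hK : IsCompact (Icc (-D) D ×ℂ Icc t1 t2) := isCompact_Icc.reProdIm isCompact_Icc
  refine (fin_zeros h.diff h.ne hK).subset ?_
  rintro b ⟨h1, h2, h3⟩
  refine ⟨?_, h1⟩
  rw [mem_reProdIm]
  have := abs_le.1 (hD b h1)
  exact ⟨⟨this.1, this.2⟩, h2, h3⟩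

/-- **The zeros of the difference to the right of the line between two good heights are at most as many as the
zeros at distance at least `d` from the line.** -/
theorem window {Φ : ℂ → ℂ} (h : Sy Φ) (hz : ∃ z, Φ z = 0) (hD : ∀ b, Φ b = 0 → |b.re| ≤ 1 / 2) {d : ℝ}
    (hd : 0 < d) {w : ℂ} (hw : ‖w‖ = 1) {t1 t2 : ℝ} (h12 : t1 < t2)
    (g1 : ∀ b, Φ b = 0 → b.re ^ 2 < d ^ 2 + (t1 - b.im) ^ 2)
    (g2 : ∀ b, Φ b = 0 → b.re ^ 2 < d ^ 2 + (t2 - b.im) ^ 2) :
    cnt {s | 0 < s.re ∧ t1 < s.im ∧ s.im < t2} (FF Φ d w) ≤ cnt {s | d ≤ s.re ∧ t1 < s.im ∧ s.im < t2} Φ := by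
  have hΦd := h.diff
  have hFd := FF_diff hΦd d w
  have hsq : ∀ b, Φ b = 0 → b.re ^ 2 ≤ 1 / 4 := by
    intro b hb
    have := abs_le.1 (hD b hb)
    nlinarith
  obtain ⟨U, hU⟩ : ∃ U : Set ℂ, U = Ioo (0 : ℝ) 1 ×ℂ Ioo t1 t2 := ⟨_, rfl⟩
  have hUo : IsOpen U := by
    rw [hU]
    exact isOpen_Ioo.reProdIm isOpen_Ioo
  have hUb : Bornology.IsBounded U := by
    rw [hU]
    exact (isBounded_Ioo 0 1).reProdIm (isBounded_Ioo t1 t2)
  have hUc : closure U = Icc (0 : ℝ) 1 ×ℂ Icc t1 t2 := by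
    rw [hU, closure_reProdIm, closure_Ioo (by norm_num), closure_Ioo h12.ne]
  have hUf : frontier U = (Icc (0 : ℝ) 1 ×ℂ {t1, t2}) ∪ (({0, 1} : Set ℝ) ×ℂ Icc t1 t2) := by
    rw [hU, frontier_reProdIm, closure_Ioo (by norm_num), closure_Ioo h12.ne, frontier_Ioo h12,
      frontier_Ioo (by norm_num)]
  have hUfn : (frontier U).Nonempty := by
    rw [hUf]
    refine ⟨⟨0, t1⟩, Or.inl ?_⟩
    rw [mem_reProdIm]
    exact ⟨⟨le_rfl, by norm_num⟩, Or.inl rfl⟩
  -- step A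
  have hA : cnt {s | 0 < s.re ∧ t1 < s.im ∧ s.im < t2} (FF Φ d w) = cnt U (FF Φ d w) := by
    refine cnt_congr hFd fun s hs => ?_
    rw [hU, mem_reProdIm]
    constructor
    · rintro ⟨h1, h2, h3⟩
      refine ⟨⟨h1, ?_⟩, h2, h3⟩
      by_contra hlt
      push Not at hlt
      refine FF_ne h hz hD h1 hd hw (fun b hb => ?_) hs
      have := hsq b hb
      nlinarith [sq_nonneg (s.im - b.im), sq_nonneg d]
    · rintro ⟨⟨h1, -⟩, h2, h3⟩
      exact ⟨h1, h2, h3⟩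
  have hFne : ∃ z, FF Φ d w z ≠ 0 := by
    refine ⟨1, FF_ne h hz hD (by simp) hd hw fun b hb => ?_⟩
    have := hsq b hb
    simp only [one_re, one_im]
    nlinarith [sq_nonneg ((0 : ℝ) - b.im), sq_nonneg d]
  obtain ⟨m, hm, hlow⟩ := cnt_lower hFd hFne hUo hUb
  -- step B
  have c0 : ∀ᶠ e : ℝ in 𝓝[>] 0, 0 < e ∧ e < d ∧ e < 1 := by
    filter_upwards [Ioo_mem_nhdsGT (lt_min hd one_pos)] with e he
    exact ⟨he.1, he.2.trans_le (min_le_left _ _), he.2.trans_le (min_le_right _ _)⟩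
  have hfin := fin_window h hD t1 t2
  have c2 : ∀ᶠ e : ℝ in 𝓝[>] 0, ∀ b ∈ hfin.toFinset, b.re < d - e ∨ d ≤ b.re := by
    refine (Filter.eventually_all_finset _).2 fun b _ => ?_
    rcases lt_or_ge b.re d with hb | hb
    · filter_upwards [Ioo_mem_nhdsGT (sub_pos.2 hb)] with e he
      left
      linarith [he.2]
    · filter_upwards with e
      exact Or.inr hb
  have c3 : ∀ t : ℝ, (∀ b, Φ b = 0 → b.re ^ 2 < d ^ 2 + (t - b.im) ^ 2) →
      ∀ᶠ e : ℝ in 𝓝[>] 0, ∀ b, Φ b = 0 → b.re ^ 2 < (d - e) ^ 2 + (t - b.im) ^ 2 := by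
    intro t ht
    have h1 := near_cond h hD (s0 := t * I) (d := d) (fun b hb => by
      have := ht b hb
      simpa using this)
    have h2 : Tendsto (fun e : ℝ => ((t * I : ℂ), d - e)) (𝓝[>] 0) (𝓝 ((t * I : ℂ), d)) := by
      have h3 : Tendsto (fun e : ℝ => ((t * I : ℂ), d - e)) (𝓝 0) (𝓝 ((t * I : ℂ), d - 0)) := by
        apply Continuous.tendsto (f := fun e : ℝ => ((t * I : ℂ), d - e))
        fun_prop
      rw [sub_zero] at h3
      exact h3.mono_left nhdsWithin_le_nhds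
    filter_upwards [h2.eventually h1] with e he b hb
    have := he b hb
    simpa using this
  have c4 : ∀ᶠ e : ℝ in 𝓝[>] 0, ∀ z ∈ closure U, ‖FF Φ d w z - FF Φ (d - e) (((1 - e : ℝ) : ℂ) * w) z‖ < m := by
    have h1 : ∀ᶠ e : ℝ in 𝓝 0, ∀ z ∈ closure U, ‖FF Φ d w z - FF Φ (d - e) (((1 - e : ℝ) : ℂ) * w) z‖ < m := by
      refine hUb.isCompact_closure.eventually_forall_of_forall_eventually
        (P := fun e z => ‖FF Φ d w z - FF Φ (d - e) (((1 - e : ℝ) : ℂ) * w) z‖ < m) fun z _ => ?_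
      have hc : Continuous (fun p : ℝ × ℂ => ‖FF Φ d w p.2 - FF Φ (d - p.1) (((1 - p.1 : ℝ) : ℂ) * w) p.2‖) := by
        unfold FF
        have := hΦd.continuous
        fun_prop
      have h2 := hc.tendsto (0, z)
      simp only [sub_zero, ofReal_one, one_mul, sub_self, norm_zero] at h2
      exact h2.eventually_lt_const hm
    exact h1.filter_mono nhdsWithin_le_nhds
  obtain ⟨e, ⟨he0, hed, he1⟩, hc2, hc31, hc32, hc4⟩ := (c0.and (c2.and ((c3 t1 g1).and ((c3 t2 g2).and c4)))).exists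
  obtain ⟨d', hd'⟩ : ∃ d' : ℝ, d' = d - e := ⟨_, rfl⟩
  have hd'0 : 0 < d' := by rw [hd']; linarith
  have hd'd : d' < d := by rw [hd']; linarith
  rw [← hd'] at hc31 hc32 hc4
  have hc2' : ∀ b, Φ b = 0 → t1 ≤ b.im → b.im ≤ t2 → b.re < d' ∨ d ≤ b.re := by
    intro b hb h1 h2
    rw [hd']
    exact hc2 b (by rw [Set.Finite.mem_toFinset]; exact ⟨hb, h1, h2⟩)
  obtain ⟨l, hl⟩ : ∃ l : ℝ, l = 1 - e := ⟨_, rfl⟩
  have hl0 : 0 < l := by rw [hl]; linarith
  have hl1 : l < 1 := by rw [hl]; linarith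
  rw [← hl] at hc4
  -- step C
  have hAd : Differentiable ℂ (fun z : ℂ => Φ (z + d')) := hΦd.comp (by fun_prop)
  have hBd : Differentiable ℂ (fun z : ℂ => -((l : ℂ) * w) * Φ (z - d')) :=
    (hΦd.comp (by fun_prop : Differentiable ℂ fun z : ℂ => z - d')).const_mul _
  have hBn : ∀ z : ℂ, ‖-((l : ℂ) * w) * Φ (z - d')‖ = l * ‖Φ (z - d')‖ := by
    intro z
    rw [norm_mul, norm_neg, norm_mul, hw, mul_one, Complex.norm_real, Real.norm_eq_abs, abs_of_pos hl0]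
  have hstrict : ∀ z : ℂ, 0 < z.re → (∀ b, Φ b = 0 → b.re ^ 2 < z.re ^ 2 + d' ^ 2 + (z.im - b.im) ^ 2) →
      ‖-((l : ℂ) * w) * Φ (z - d')‖ < ‖Φ (z + d')‖ := by
    intro z hz0 hz1
    rw [hBn]
    have h1 := lt_shift h hz hD hz0 hd'0 hz1
    have h2 : l * ‖Φ (z - d')‖ ≤ 1 * ‖Φ (z - d')‖ := mul_le_mul_of_nonneg_right hl1.le (norm_nonneg _)
    linarith
  have hzero : ∀ z : ℂ, z.re = 0 → t1 ≤ z.im → z.im ≤ t2 → ‖-((l : ℂ) * w) * Φ (z - d')‖ < ‖Φ (z + d')‖ := by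
    intro z hz0 hz1 hz2
    rw [hBn, sym_norm h hz0]
    have h1 : Φ (z + d') ≠ 0 := by
      intro h0
      have e1 : (z + (d' : ℂ)).re = d' := by simp [hz0]
      have e2 : (z + (d' : ℂ)).im = z.im := by simp
      have h3 := hc2' _ h0 (by rw [e2]; exact hz1) (by rw [e2]; exact hz2)
      rw [e1] at h3
      rcases h3 with h3 | h3 <;> linarith
    have h2 : 0 < ‖Φ (z + d')‖ := norm_pos_iff.2 h1
    nlinarith
  have hfr : ∀ z ∈ frontier U, ‖-((l : ℂ) * w) * Φ (z - d')‖ < ‖Φ (z + d')‖ := by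
    intro z hz0
    rw [hUf] at hz0
    have key : ∀ t : ℝ, t1 ≤ t → t ≤ t2 → (∀ b, Φ b = 0 → b.re ^ 2 < d' ^ 2 + (t - b.im) ^ 2) → z.im = t → 0 ≤ z.re →
        ‖-((l : ℂ) * w) * Φ (z - d')‖ < ‖Φ (z + d')‖ := by
      intro t ht1 ht2 ht3 hzt hzr
      rcases hzr.eq_or_lt with h0 | h0
      · exact hzero z h0.symm (by rw [hzt]; exact ht1) (by rw [hzt]; exact ht2)
      · refine hstrict z h0 fun b hb => ?_
        have := ht3 b hb
        rw [hzt]
        nlinarith [sq_nonneg z.re]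
    rcases hz0 with h1 | h1
    · rw [mem_reProdIm] at h1
      rcases h1.2 with h2 | h2
      · exact key t1 le_rfl h12.le hc31 h2 h1.1.1
      · exact key t2 h12.le le_rfl hc32 h2 h1.1.1
    · rw [mem_reProdIm] at h1
      rcases h1.1 with h2 | h2
      · exact hzero z h2 h1.2.1 h1.2.2
      · have h3 : z.re = 1 := h2
        refine hstrict z (by rw [h3]; norm_num) fun b hb => ?_
        have := hsq b hb
        rw [h3]
        nlinarith [sq_nonneg (z.im - b.im), sq_nonneg d']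
  have hC := rouche_open hAd hBd hUo hUb hUfn hfr
  have hC' : (fun z : ℂ => Φ (z + d') + -((l : ℂ) * w) * Φ (z - d')) = FF Φ d' ((l : ℂ) * w) := by
    funext z
    unfold FF
    ring
  rw [hC'] at hC
  -- step D
  have hDD : cnt U (fun z : ℂ => Φ (z + d')) = cnt {s | d ≤ s.re ∧ t1 < s.im ∧ s.im < t2} Φ := by
    rw [cnt_shift]
    refine cnt_congr hΦd fun s hs => ?_
    constructor
    · rintro ⟨z, hzU, rfl⟩
      rw [hU, mem_reProdIm] at hzU
      have e1 : (z + (d' : ℂ)).re = z.re + d' := by simp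
      have e2 : (z + (d' : ℂ)).im = z.im := by simp
      have h3 := hc2' _ hs (by rw [e2]; exact hzU.2.1.le) (by rw [e2]; exact hzU.2.2.le)
      refine ⟨?_, by rw [e2]; exact hzU.2.1, by rw [e2]; exact hzU.2.2⟩
      rcases h3 with h3 | h3
      · rw [e1] at h3
        have := hzU.1.1
        linarith
      · exact h3
    · rintro ⟨h1, h2, h3⟩
      refine ⟨s - d', ?_, by ring⟩
      rw [hU, mem_reProdIm]
      have e1 : (s - (d' : ℂ)).re = s.re - d' := by simp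
      have e2 : (s - (d' : ℂ)).im = s.im := by simp
      rw [e1, e2]
      have h4 := (abs_le.1 (hD s hs)).2
      exact ⟨⟨by linarith, by linarith⟩, h2, h3⟩
  rw [hA, ← hDD, ← hC]
  exact hlow _ (FF_diff hΦd _ _) hc4

end Pool.Agent.P8H74.SD
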