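import Mathlib
import Pool.Agent.P8H74.SD.Win
import Pool.Agent.Y671.GL.Spec2

set_option autoImplicit false

/-!
# A bound for the number of all zeros of the differences, uniform in the shift
-/

namespace Pool.Agent.P8H74.SD

open MeasureTheory Complex Filter Topology Metric Set
open Pool.Agent.Y671.GL (CF)
open scoped ComplexConjugate InnerProductSpace

/-- Jensen's inequality for finite sets of zeros -/
theorem jcount0 {f : ℂ → ℂ} (hf : Differentiable ℂ f) {c : ℂ} {r R M : ℝ} (hr : 0 < r) (hrR : r < R)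
    (hM1 : 1 ≤ M) (hc : f c ≠ 0) (hM : ∀ z, ‖z - c‖ ≤ R → ‖f z‖ ≤ M) (S : Finset ℂ)
    (hS : ∀ s ∈ S, ‖s - c‖ ≤ r) :
    ∑ s ∈ S, (analyticOrderNatAt f s : ℝ) ≤ Real.log (M / ‖f c‖) / Real.log (R / r) := by
  classical
  have hR : 0 < R := hr.trans hrR
  have habs : |R| = R := abs_of_pos hR
  have habr : |r| = r := abs_of_pos hr
  have han : ∀ ρ : ℝ, AnalyticOnNhd ℂ f (closedBall c ρ) := fun ρ z _ => hf.analyticAt z
  have h1 := AnalyticOnNhd.sum_divisor_le (c := c) (r := r) (R := R) (M := M) (f := f)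
    (by rw [habr]; exact hr) (by rw [habr, habs]; exact hrR) hM1 (han _) hc (by
      intro z hz
      rw [habs, mem_sphere_iff_norm] at hz
      exact hM z hz.le)
  rw [habr] at h1
  refine le_trans ?_ h1
  have hdiv : ∀ u ∈ closedBall c r, MeromorphicOn.divisor f (closedBall c r) u =
      (analyticOrderNatAt f u : ℤ) := by
    intro u hu
    rw [MeromorphicOn.AnalyticOnNhd.divisor_apply (han r) hu]
    unfold analyticOrderNatAt
    cases h : analyticOrderAt f u with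
    | top => simp
    | coe n => simp
  have hfin : (MeromorphicOn.divisor f (closedBall c r)).support.Finite :=
    (MeromorphicOn.divisor f (closedBall c r)).finiteSupport (isCompact_closedBall c r)
  rw [finsum_eq_sum_of_support_subset (s := S ∪ hfin.toFinset)]
  · push_cast
    have h2 : ∑ s ∈ S, (analyticOrderNatAt f s : ℝ) =
        ∑ s ∈ S, ((MeromorphicOn.divisor f (closedBall c r) s : ℤ) : ℝ) := by
      refine Finset.sum_congr rfl fun s hs => ?_
      rw [hdiv s (by rw [mem_closedBall_iff_norm]; exact hS s hs)]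
      push_cast
      rfl
    rw [h2]
    refine Finset.sum_le_sum_of_subset_of_nonneg Finset.subset_union_left ?_
    intro u _ _
    by_cases hu : u ∈ closedBall c r
    · rw [hdiv u hu]
      exact_mod_cast Nat.zero_le _
    · rw [Function.locallyFinsuppWithin.apply_eq_zero_of_notMem _ hu]
      simp
  · intro u hu
    rw [Finset.coe_union, Set.Finite.coe_toFinset]
    exact Or.inr hu

theorem order_const_mul {f : ℂ → ℂ} {a : ℂ} (ha : a ≠ 0) (s : ℂ) (hf : AnalyticAt ℂ f s) :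
    analyticOrderNatAt (fun z => a * f z) s = analyticOrderNatAt f s := by
  unfold analyticOrderNatAt
  congr 1
  have h1 : AnalyticAt ℂ (fun _ : ℂ => a) s := analyticAt_const
  have h2 := analyticOrderAt_mul h1 hf
  have h3 : analyticOrderAt (fun _ : ℂ => a) s = 0 := h1.analyticOrderAt_eq_zero.2 ha
  rw [h3, zero_add] at h2
  exact h2

/-- Jensen's inequality, scale invariant -/
theorem jcount {f : ℂ → ℂ} (hf : Differentiable ℂ f) {c : ℂ} {r R A : ℝ} (hr : 0 < r) (hrR : r < R)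
    (hc : f c ≠ 0) (hM : ∀ z, ‖z - c‖ ≤ R → ‖f z‖ ≤ Real.exp A * ‖f c‖) (S : Finset ℂ)
    (hS : ∀ s ∈ S, ‖s - c‖ ≤ r) :
    ∑ s ∈ S, (analyticOrderNatAt f s : ℝ) ≤ A / Real.log (R / r) := by
  have hcn : 0 < ‖f c‖ := norm_pos_iff.2 hc
  have hR : 0 < R := hr.trans hrR
  have hA : 1 ≤ Real.exp A := by
    have h := hM c (by simpa using hR.le)
    by_contra hlt
    push Not at hlt
    nlinarith
  have hg : Differentiable ℂ (fun z => (f c)⁻¹ * f z) := by fun_prop
  have h := jcount0 hg hr hrR (M := Real.exp A) hA (c := c) (by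
    simp only [ne_eq, mul_eq_zero, inv_eq_zero, or_self]; exact hc) (by
    intro z hz
    rw [norm_mul, norm_inv, inv_mul_le_iff₀ hcn, mul_comm]
    exact hM z hz) S hS
  rw [inv_mul_cancel₀ hc, norm_one, div_one, Real.log_exp] at h
  refine le_trans (le_of_eq ?_) h
  refine Finset.sum_congr rfl fun s _ => ?_
  rw [order_const_mul (inv_ne_zero hc) s (hf.analyticAt s)]

/-- growth from the logarithmic derivative -/
theorem growth_le {f : ℂ → ℂ} (hf : Differentiable ℂ f) {s : ℂ} {a b : ℝ} (hab : a ≤ b)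
    (h : ∀ v : ℝ, a ≤ v → v ≤ b → f (s + v) ≠ 0 ∧ 1 ≤ (logDeriv f (s + v)).re) :
    ‖f (s + a)‖ ≤ Real.exp (-(b - a)) * ‖f (s + b)‖ := by
  obtain ⟨g, hg⟩ : ∃ g : ℝ → ℂ, g = fun v : ℝ => f (s + v) * Complex.exp (-(v : ℂ)) := ⟨_, rfl⟩
  have hgd : ∀ v : ℝ, HasDerivAt g (deriv f (s + v) * Complex.exp (-(v : ℂ)) - f (s + v) * Complex.exp (-(v : ℂ))) v := by
    intro v
    have h1 : HasDerivAt (fun z : ℂ => f (s + z) * Complex.exp (-z))
        (deriv f (s + v) * Complex.exp (-(v : ℂ)) + f (s + v) * (Complex.exp (-(v : ℂ)) * (-1))) (v : ℂ) := by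
      have e1 : HasDerivAt (fun z : ℂ => f (s + z)) (deriv f (s + v)) (v : ℂ) := by
        have := ((hf (s + v)).hasDerivAt).comp_const_add s (v : ℂ)
        simpa using this
      have e2 : HasDerivAt (fun z : ℂ => Complex.exp (-z)) (Complex.exp (-(v : ℂ)) * (-1)) (v : ℂ) :=
        (hasDerivAt_neg (v : ℂ)).cexp
      exact e1.mul e2
    have h2 := h1.comp_ofReal
    rw [hg]
    convert h2 using 1
    ring
  have hmono : MonotoneOn (fun v : ℝ => ‖g v‖ ^ 2) (Icc a b) := by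
    refine monotoneOn_of_deriv_nonneg (convex_Icc a b) ?_ ?_ ?_
    · exact fun v _ => ((hgd v).norm_sq).continuousAt.continuousWithinAt
    · exact fun v _ => ((hgd v).norm_sq).differentiableAt.differentiableWithinAt
    · intro v hv
      rw [interior_Icc] at hv
      rw [((hgd v).norm_sq).deriv]
      obtain ⟨h1, h2⟩ := h v hv.1.le hv.2.le
      have e1 : deriv f (s + v) * Complex.exp (-(v : ℂ)) - f (s + v) * Complex.exp (-(v : ℂ)) =
          g v * (logDeriv f (s + v) - 1) := by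
        rw [hg, logDeriv_apply]
        field_simp
      have e2 : g v * (logDeriv f (s + v) - 1) * conj (g v) = (logDeriv f (s + v) - 1) * ((‖g v‖ ^ 2 : ℝ) : ℂ) := by
        rw [mul_right_comm, Complex.mul_conj']
        push_cast
        ring
      rw [e1, Complex.inner, e2, Complex.re_mul_ofReal, Complex.sub_re, Complex.one_re]
      have : 0 ≤ (logDeriv f (s + v)).re - 1 := by linarith
      positivity
  have h3 := hmono ⟨le_rfl, hab⟩ ⟨hab, le_rfl⟩ hab
  have h4 : ‖g a‖ ≤ ‖g b‖ := abs_le_of_sq_le_sq' h3 (norm_nonneg _) |>.2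
  rw [hg] at h4
  simp only [norm_mul, Complex.norm_exp, Complex.neg_re, Complex.ofReal_re] at h4
  have h5 : Real.exp (-(b - a)) = Real.exp (-b) * Real.exp a := by
    rw [← Real.exp_add]
    congr 1
    ring
  have h6 : Real.exp (-a) * Real.exp a = 1 := by
    rw [← Real.exp_add]
    simp
  calc ‖f (s + a)‖ = ‖f (s + a)‖ * Real.exp (-a) * Real.exp a := by rw [mul_assoc, h6, mul_one]
    _ ≤ ‖f (s + b)‖ * Real.exp (-b) * Real.exp a := mul_le_mul_of_nonneg_right h4 (Real.exp_pos _).le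
    _ = _ := by rw [h5]; ring

/-- lower bound for the difference to the right -/
theorem low_diff {f : ℂ → ℂ} (hf : Differentiable ℂ f) {s : ℂ} {d M : ℝ} (hd : 0 < d) (hd2 : d ≤ 1 / 2) (hM : 1 ≤ M)
    (h : ∀ v : ℝ, -d ≤ v → v ≤ d → f (s + v) ≠ 0 ∧ 1 ≤ (logDeriv f (s + v)).re ∧ ‖logDeriv f (s + v)‖ ≤ M)
    {w : ℂ} (hw : ‖w‖ = 1) : (2 * d + ‖1 - w‖) * ‖f (s + d)‖ / (6 * M) ≤ ‖FF f d w s‖ := by
  obtain ⟨A, hA⟩ : ∃ A : ℂ, A = f (s + d) := ⟨_, rfl⟩
  obtain ⟨B, hB⟩ : ∃ B : ℂ, B = f (s - d) := ⟨_, rfl⟩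
  have hBn : ‖B‖ ≤ Real.exp (-(2 * d)) * ‖A‖ := by
    have h1 := growth_le hf (s := s) (a := -d) (b := d) (by linarith) fun v h1 h2 => ⟨(h v h1 h2).1, (h v h1 h2).2.1⟩
    rw [hA, hB]
    have e1 : s + ((-d : ℝ) : ℂ) = s - d := by push_cast; ring
    have e2 : d - -d = 2 * d := by ring
    rw [e1, e2] at h1
    exact h1
  have hvA : ∀ v : ℝ, -d ≤ v → v ≤ d → ‖f (s + v)‖ ≤ ‖A‖ := by
    intro v h1 h2
    have h3 := growth_le hf (s := s) (a := v) (b := d) h2 fun u h4 h5 =>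
      ⟨(h u (h1.trans h4) h5).1, (h u (h1.trans h4) h5).2.1⟩
    have h4 : Real.exp (-(d - v)) ≤ 1 := by
      rw [Real.exp_le_one_iff]
      linarith
    rw [hA]
    exact h3.trans (mul_le_of_le_one_left (norm_nonneg _) h4)
  have hAB : ‖A - B‖ ≤ 2 * d * M * ‖A‖ := by
    have h1 : ∀ v ∈ Icc (-d) d, HasDerivWithinAt (fun v : ℝ => f (s + v)) (deriv f (s + v)) (Icc (-d) d) v := by
      intro v _
      have e1 : HasDerivAt (fun z : ℂ => f (s + z)) (deriv f (s + v)) (v : ℂ) := by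
        have := ((hf (s + v)).hasDerivAt).comp_const_add s (v : ℂ)
        simpa using this
      exact e1.comp_ofReal.hasDerivWithinAt
    have h2 : ∀ v ∈ Ico (-d) d, ‖deriv f (s + v)‖ ≤ M * ‖A‖ := by
      intro v hv
      obtain ⟨h3, h4, h5⟩ := h v hv.1 hv.2.le
      have e1 : deriv f (s + v) = logDeriv f (s + v) * f (s + v) := by
        rw [logDeriv_apply]
        field_simp
      rw [e1, norm_mul]
      exact mul_le_mul h5 (hvA v hv.1 hv.2.le) (norm_nonneg _) (by linarith)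
    have h3 := norm_image_sub_le_of_norm_deriv_le_segment' h1 h2 d ⟨by linarith, le_rfl⟩
    have e1 : s + ((-d : ℝ) : ℂ) = s - d := by push_cast; ring
    rw [e1, ← hA, ← hB] at h3
    calc ‖A - B‖ ≤ M * ‖A‖ * (d - -d) := h3
      _ = _ := by ring
  have hA0 : 0 ≤ ‖A‖ := norm_nonneg A
  have hw0 : 0 ≤ ‖1 - w‖ := norm_nonneg _
  have hFF : FF f d w s = A - w * B := by
    unfold FF
    rw [hA, hB]
  rw [hFF, ← hA, div_le_iff₀ (by linarith)]
  rcases le_or_gt (4 * d * M) ‖1 - w‖ with h1 | h1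
  · have h2 : ‖1 - w‖ * ‖A‖ - 2 * d * M * ‖A‖ ≤ ‖A - w * B‖ := by
      have e : A - w * B = (1 - w) * A - -(w * (A - B)) := by ring
      rw [e]
      refine le_trans ?_ (norm_sub_norm_le _ _)
      rw [norm_neg, norm_mul, norm_mul, hw, one_mul]
      linarith
    have h3 : 2 * d * M * ‖A‖ ≤ ‖1 - w‖ / 2 * ‖A‖ := mul_le_mul_of_nonneg_right (by linarith) hA0
    have h4 : ‖1 - w‖ / 2 * ‖A‖ ≤ ‖A - w * B‖ := by linarith
    have h5 : 2 * d ≤ ‖1 - w‖ / 2 := by nlinarith
    have h6 : (2 * d + ‖1 - w‖) * ‖A‖ ≤ 3 * (‖1 - w‖ / 2 * ‖A‖) := by nlinarith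
    have h7 : 0 ≤ ‖1 - w‖ / 2 * ‖A‖ := by positivity
    calc (2 * d + ‖1 - w‖) * ‖A‖ ≤ 3 * (‖1 - w‖ / 2 * ‖A‖) := h6
      _ ≤ ‖A - w * B‖ * (6 * M) := by nlinarith
  · have h2 : ‖A‖ - ‖B‖ ≤ ‖A - w * B‖ := by
      have := norm_sub_norm_le A (w * B)
      rw [norm_mul, hw, one_mul] at this
      exact this
    have h3 : d ≤ 1 - Real.exp (-(2 * d)) := by
      have h4 : Real.exp (-(2 * d)) ≤ 1 / (1 + 2 * d) := by
        rw [Real.exp_neg, inv_eq_one_div]
        refine one_div_le_one_div_of_le (by linarith) ?_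
        have := Real.add_one_le_exp (2 * d)
        linarith
      have h5 : 1 / (1 + 2 * d) ≤ 1 - d := by
        rw [div_le_iff₀ (by linarith)]
        nlinarith
      linarith
    have h4 : d * ‖A‖ ≤ ‖A - w * B‖ := by
      have : d * ‖A‖ ≤ (1 - Real.exp (-(2 * d))) * ‖A‖ := mul_le_mul_of_nonneg_right h3 hA0
      linarith
    have h5 : 2 * d + ‖1 - w‖ ≤ 6 * M * d := by nlinarith
    calc (2 * d + ‖1 - w‖) * ‖A‖ ≤ 6 * M * d * ‖A‖ := mul_le_mul_of_nonneg_right h5 hA0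
      _ = d * ‖A‖ * (6 * M) := by ring
      _ ≤ ‖A - w * B‖ * (6 * M) := mul_le_mul_of_nonneg_right h4 (by linarith)

/-- upper bound for the difference -/
theorem up_diff {f : ℂ → ℂ} (hf : Differentiable ℂ f) {z : ℂ} {d M : ℝ} (hd : 0 < d)
    (h : ∀ v : ℝ, -d ≤ v → v ≤ d → ‖f (z + v)‖ ≤ M ∧ ‖deriv f (z + v)‖ ≤ M) (w : ℂ) :
    ‖FF f d w z‖ ≤ (2 * d + ‖1 - w‖) * M := by
  have hAB : ‖f (z + d) - f (z - d)‖ ≤ 2 * d * M := by
    have h1 : ∀ v ∈ Icc (-d) d, HasDerivWithinAt (fun v : ℝ => f (z + v)) (deriv f (z + v)) (Icc (-d) d) v := by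
      intro v _
      have e1 : HasDerivAt (fun y : ℂ => f (z + y)) (deriv f (z + v)) (v : ℂ) := by
        have := ((hf (z + v)).hasDerivAt).comp_const_add z (v : ℂ)
        simpa using this
      exact e1.comp_ofReal.hasDerivWithinAt
    have h3 := norm_image_sub_le_of_norm_deriv_le_segment' h1 (fun v hv => (h v hv.1 hv.2.le).2) d ⟨by linarith, le_rfl⟩
    have e1 : z + ((-d : ℝ) : ℂ) = z - d := by push_cast; ring
    rw [e1] at h3
    calc _ ≤ M * (d - -d) := h3
      _ = _ := by ring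
  have hB : ‖f (z - d)‖ ≤ M := by
    have := (h (-d) le_rfl (by linarith)).1
    have e1 : z + ((-d : ℝ) : ℂ) = z - d := by push_cast; ring
    rwa [e1] at this
  have e : FF f d w z = (f (z + d) - f (z - d)) + (1 - w) * f (z - d) := by
    unfold FF
    ring
  rw [e]
  refine (norm_add_le _ _).trans ?_
  rw [norm_mul]
  have := mul_le_mul_of_nonneg_left hB (norm_nonneg (1 - w))
  linarith

end Pool.Agent.P8H74.SD
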