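import Mathlib
import Pool.Agent.P8H74.SD.Triv

set_option autoImplicit false

/-!
# A bound for the number of all zeros of the differences, uniform in the shift, second part
-/

namespace Pool.Agent.P8H74.SD

open MeasureTheory Complex Filter Topology Metric Set
open Pool.Agent.Y671.GL (CF)
open scoped ComplexConjugate InnerProductSpace

/-- local size -/
theorem loc {κ : ℝ} {H Φ Z : ℂ → ℂ} (hC : CF κ H Φ Z) : ∃ K T1 : ℝ, 1 ≤ K ∧ 16 ≤ T1 ∧ ∀ t : ℝ, T1 ≤ t →
    0 < ‖H (I * t)‖ ∧ (∀ u : ℂ, ‖u‖ ≤ 12 → ‖Φ (I * t + u)‖ ≤ Real.exp (K * Real.log t) * ‖H (I * t)‖) ∧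
    ∀ u : ℂ, ‖u‖ ≤ 12 → 1 ≤ u.re → Φ (I * t + u) ≠ 0 ∧
      Real.exp (-(K * Real.log t)) * ‖H (I * t)‖ ≤ ‖Φ (I * t + u)‖ ∧
      ‖logDeriv Φ (I * t + u) - ((κ * Real.log t : ℝ) : ℂ)‖ ≤ K := by
  obtain ⟨K1, T01, hK1, hT01, h1⟩ := hC.gam 12 (by norm_num)
  obtain ⟨K2, T02, hK2, hT02, h2⟩ := hC.gro 12 (by norm_num)
  obtain ⟨c3, K3, hc3, hK3, h3⟩ := hC.rgt (1 / 2) (by norm_num)
  have hκ := hC.κ_pos
  refine ⟨12 * κ + K1 + K2 + K3 + |Real.log c3| + 1, max (max T01 T02) 16, ?_, le_max_right _ _, fun t ht => ?_⟩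
  · have := abs_nonneg (Real.log c3)
    linarith
  have ht1 : T01 ≤ t := ((le_max_left _ _).trans (le_max_left _ _)).trans ht
  have ht2 : T02 ≤ t := ((le_max_right _ _).trans (le_max_left _ _)).trans ht
  have ht16 : 16 ≤ t := (le_max_right _ _).trans ht
  have ht0 : 0 < t := by linarith
  have hlc := abs_nonneg (Real.log c3)
  obtain ⟨L, hL⟩ : ∃ L : ℝ, L = Real.log t := ⟨_, rfl⟩
  have hL1 : 1 ≤ L := by
    rw [hL, Real.le_log_iff_exp_le ht0]
    have := Real.exp_one_lt_d9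
    linarith
  rw [← hL]
  have him : ∀ u : ℂ, ‖u‖ ≤ 12 → 0 < (I * t + u).im := by
    intro u hu
    have h4 := (abs_le.1 ((Complex.abs_im_le_norm u).trans hu)).1
    simp
    linarith
  have hH0 : 0 < ‖H (I * t)‖ := by
    have := (h1 t 0 ht1 (by simp)).2.1
    rw [add_zero] at this
    exact norm_pos_iff.2 this
  refine ⟨hH0, fun u hu => ?_, fun u hu hu1 => ?_⟩
  · obtain ⟨-, -, -, -, h4⟩ := h1 t u ht1 hu
    have h5 := h2 t u ht2 hu
    rw [hC.eq _ (him u hu), norm_mul]
    have h6 : u.re ≤ 12 := (le_abs_self _).trans ((Complex.abs_re_le_norm u).trans hu)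
    have h7 : t ^ K2 = Real.exp (K2 * L) := by
      rw [Real.rpow_def_of_pos ht0, hL]
      ring_nf
    rw [h7] at h5
    rw [← hL] at h4
    have h8 : Real.exp (κ * L * u.re + K1) ≤ Real.exp ((12 * κ + K1) * L) := by
      apply Real.exp_le_exp.2
      have e1 : κ * L * u.re ≤ κ * L * 12 := mul_le_mul_of_nonneg_left h6 (by positivity)
      have e2 : K1 ≤ K1 * L := le_mul_of_one_le_right hK1.le hL1
      linarith
    calc ‖H (I * t + u)‖ * ‖Z (1 / 2 + (I * t + u))‖
        ≤ (Real.exp ((12 * κ + K1) * L) * ‖H (I * t)‖) * Real.exp (K2 * L) :=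
          mul_le_mul (h4.trans (mul_le_mul_of_nonneg_right h8 hH0.le)) h5 (norm_nonneg _) (by positivity)
      _ = Real.exp ((12 * κ + K1 + K2) * L) * ‖H (I * t)‖ := by
          rw [mul_right_comm, ← Real.exp_add]
          congr 2
          ring
      _ ≤ _ := by
          refine mul_le_mul_of_nonneg_right (Real.exp_le_exp.2 ?_) hH0.le
          refine mul_le_mul_of_nonneg_right ?_ (by linarith)
          linarith
  · obtain ⟨h4, h5, h6, h7, -⟩ := h1 t u ht1 hu
    have hre : 1 + 1 / 2 ≤ ((1 / 2 : ℂ) + (I * t + u)).re := by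
      simp
      linarith
    obtain ⟨h8, -, h9⟩ := h3 _ hre
    have hZ0 : Z (1 / 2 + (I * t + u)) ≠ 0 := norm_pos_iff.1 (lt_of_lt_of_le hc3 h8)
    have heq := hC.eq _ (him u hu)
    have hne : Φ (I * t + u) ≠ 0 := by
      rw [heq]
      exact mul_ne_zero h5 hZ0
    refine ⟨hne, ?_, ?_⟩
    · rw [heq, norm_mul]
      rw [← hL] at h7
      have h10 : Real.exp (-((K1 + |Real.log c3|) * L)) ≤ Real.exp (κ * L * u.re - K1) * c3 := by
        rw [← Real.exp_log hc3, ← Real.exp_add, Real.exp_log hc3]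
        apply Real.exp_le_exp.2
        have e1 : 0 ≤ κ * L * u.re := by positivity
        have e2 : K1 ≤ K1 * L := le_mul_of_one_le_right hK1.le hL1
        have e3 : |Real.log c3| ≤ |Real.log c3| * L := le_mul_of_one_le_right hlc hL1
        have e4 := neg_abs_le (Real.log c3)
        linarith
      calc Real.exp (-((12 * κ + K1 + K2 + K3 + |Real.log c3| + 1) * L)) * ‖H (I * t)‖
          ≤ Real.exp (-((K1 + |Real.log c3|) * L)) * ‖H (I * t)‖ := by
            refine mul_le_mul_of_nonneg_right (Real.exp_le_exp.2 ?_) hH0.le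
            refine neg_le_neg (mul_le_mul_of_nonneg_right ?_ (by linarith))
            linarith
        _ ≤ Real.exp (κ * L * u.re - K1) * c3 * ‖H (I * t)‖ := mul_le_mul_of_nonneg_right h10 hH0.le
        _ = Real.exp (κ * L * u.re - K1) * ‖H (I * t)‖ * c3 := by ring
        _ ≤ _ := mul_le_mul h7 h8 hc3.le (norm_nonneg _)
    · have hev : Φ =ᶠ[𝓝 (I * t + u)] fun z => H z * Z (1 / 2 + z) := by
        have h10 : ∀ᶠ z : ℂ in 𝓝 (I * t + u), 0 < z.im := (Complex.continuous_im.tendsto _).eventually_const_lt (him u hu)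
        filter_upwards [h10] with z hz
        exact hC.eq z hz
      have e1 : logDeriv Φ (I * t + u) = logDeriv H (I * t + u) + logDeriv Z (1 / 2 + (I * t + u)) := by
        rw [logDeriv_apply, hev.deriv_eq, hev.self_of_nhds]
        have e2 := logDeriv_mul (f := H) (g := fun z => Z (1 / 2 + z)) (I * t + u) h5 hZ0 h4
          ((hC.diffZ.comp (by fun_prop : Differentiable ℂ fun z : ℂ => 1 / 2 + z)) _)
        rw [logDeriv_apply] at e2
        rw [e2]
        congr 1
        rw [logDeriv_apply, logDeriv_apply, deriv_comp_const_add]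
      rw [e1, add_sub_right_comm]
      refine (norm_add_le _ _).trans ?_
      rw [hL]
      linarith

/-- The number of zeros of the differences in `0 < Im s ≤ T`, uniformly in the shift. -/
theorem triv {κ : ℝ} {H Φ Z : ℂ → ℂ} (hC : CF κ H Φ Z) : ∃ C : ℝ, 0 < C ∧ ∀ (d T : ℝ) (w : ℂ), 0 < d → d ≤ 1 / 2 →
    ‖w‖ = 1 → 2 ≤ T → ∀ S : Finset ℂ, (∀ s ∈ S, |s.re| ≤ 1 / 2 ∧ 0 < s.im ∧ s.im ≤ T) →
      ∑ s ∈ S, (analyticOrderNatAt (FF Φ d w) s : ℝ) ≤ C * T * Real.log T := by
  classical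
  obtain ⟨K, T0, hK, hT0, hloc⟩ := loc hC
  have hΦd := hC.diff
  have hκ := hC.κ_pos
  -- a larger starting point, where the logarithmic derivative is large
  obtain ⟨T1, hT1, hT1a⟩ : ∃ T1 : ℝ, T0 ≤ T1 ∧ ∀ t, T1 ≤ t → K + 1 ≤ κ * Real.log t := by
    refine ⟨max T0 (Real.exp ((K + 1) / κ)), le_max_left _ _, fun t ht => ?_⟩
    have h1 := (le_max_right _ _).trans ht
    have h2 : (K + 1) / κ ≤ Real.log t := by
      rw [Real.le_log_iff_exp_le (lt_of_lt_of_le (Real.exp_pos _) h1)]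
      exact h1
    rw [div_le_iff₀ hκ] at h2
    linarith
  have hT16 : 16 ≤ T1 := hT0.trans hT1
  -- lower bound
  obtain ⟨K', hK'1, hlow⟩ : ∃ K' : ℝ, 1 ≤ K' ∧ ∀ (t d : ℝ) (w : ℂ), T1 ≤ t → 0 < d → d ≤ 1 / 2 → ‖w‖ = 1 →
      (2 * d + ‖1 - w‖) * (Real.exp (-(K' * Real.log t)) * ‖H (I * t)‖) ≤ ‖FF Φ d w (I * t + 2)‖ := by
    refine ⟨K + 6 * (κ + K) + 1, by nlinarith, fun t d w ht hd hd2 hw => ?_⟩
    obtain ⟨h1, -, h3⟩ := hloc t (hT1.trans ht)
    have hL1 : 1 ≤ Real.log t := by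
      rw [Real.le_log_iff_exp_le (by linarith)]
      have := Real.exp_one_lt_d9
      linarith
    have hrange : ∀ v : ℝ, -d ≤ v → v ≤ d → ‖(2 : ℂ) + v‖ ≤ 12 ∧ 1 ≤ ((2 : ℂ) + v).re := by
      intro v h4 h5
      constructor
      · refine (norm_add_le _ _).trans ?_
        rw [Complex.norm_real, Real.norm_eq_abs]
        have : |v| ≤ 1 / 2 := abs_le.2 ⟨by linarith, by linarith⟩
        have h6 : ‖(2 : ℂ)‖ = 2 := by simp
        linarith
      · simp
        linarith
    have hM1 : 1 ≤ (κ + K) * Real.log t := by nlinarith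
    have h4 := low_diff hΦd (s := I * t + 2) (M := (κ + K) * Real.log t) hd hd2 hM1 (fun v h5 h6 => by
      obtain ⟨h7, h8⟩ := hrange v h5 h6
      obtain ⟨h9, -, h11⟩ := h3 _ h7 h8
      rw [add_assoc]
      refine ⟨h9, ?_, ?_⟩
      · have h12 := (abs_le.1 ((Complex.abs_re_le_norm _).trans h11)).1
        rw [Complex.sub_re, Complex.ofReal_re] at h12
        have := hT1a t ht
        linarith
      · have h12 : ‖logDeriv Φ (I * t + (2 + v))‖ ≤ ‖logDeriv Φ (I * t + (2 + v)) - ((κ * Real.log t : ℝ) : ℂ)‖ +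
            ‖((κ * Real.log t : ℝ) : ℂ)‖ := by
          have := norm_add_le (logDeriv Φ (I * t + (2 + v)) - ((κ * Real.log t : ℝ) : ℂ)) ((κ * Real.log t : ℝ) : ℂ)
          rwa [sub_add_cancel] at this
        rw [Complex.norm_real, Real.norm_eq_abs, abs_of_nonneg (by positivity)] at h12
        nlinarith) hw
    refine le_trans ?_ h4
    obtain ⟨h7, h8⟩ := hrange d (by linarith) le_rfl
    have h9 := (h3 _ h7 h8).2.1
    rw [← add_assoc] at h9
    rw [mul_div_assoc]
    refine mul_le_mul_of_nonneg_left ?_ (by positivity)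
    rw [le_div_iff₀ (by positivity)]
    refine le_trans ?_ h9
    have h10 : Real.exp (-((K + 6 * (κ + K) + 1) * Real.log t)) * (6 * ((κ + K) * Real.log t)) ≤
        Real.exp (-(K * Real.log t)) := by
      have h11 : 6 * ((κ + K) * Real.log t) ≤ Real.exp ((6 * (κ + K) + 1) * Real.log t) := by
        have := Real.add_one_le_exp ((6 * (κ + K) + 1) * Real.log t)
        nlinarith
      calc _ ≤ Real.exp (-((K + 6 * (κ + K) + 1) * Real.log t)) * Real.exp ((6 * (κ + K) + 1) * Real.log t) :=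
            mul_le_mul_of_nonneg_left h11 (Real.exp_pos _).le
        _ = _ := by
            rw [← Real.exp_add]
            congr 1
            ring
    calc _ = Real.exp (-((K + 6 * (κ + K) + 1) * Real.log t)) * (6 * ((κ + K) * Real.log t)) * ‖H (I * t)‖ := by ring
      _ ≤ _ := mul_le_mul_of_nonneg_right h10 h1.le
  have hpos : ∀ (t d : ℝ) (w : ℂ), T1 ≤ t → 0 < d → d ≤ 1 / 2 → ‖w‖ = 1 → FF Φ d w (I * t + 2) ≠ 0 := by
    intro t d w ht hd hd2 hw h0
    have h1 := hlow t d w ht hd hd2 hw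
    rw [h0, norm_zero] at h1
    have h2 := (hloc t (hT1.trans ht)).1
    have h3 := Real.exp_pos (-(K' * Real.log t))
    have h4 := norm_nonneg (1 - w)
    have : 0 < (2 * d + ‖1 - w‖) * (Real.exp (-(K' * Real.log t)) * ‖H (I * t)‖) := by positivity
    linarith
  have hlog2 : 0 < Real.log 2 := Real.log_pos (by norm_num)
  -- one window
  have hwin : ∀ (t d : ℝ) (w : ℂ), T1 ≤ t → 0 < d → d ≤ 1 / 2 → ‖w‖ = 1 → ∀ S : Finset ℂ,
      (∀ s ∈ S, |s.re| ≤ 1 / 2 ∧ |s.im - t| ≤ 1 / 2) →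
      ∑ s ∈ S, (analyticOrderNatAt (FF Φ d w) s : ℝ) ≤ (K + K') / Real.log 2 * Real.log t := by
    intro t d w ht hd hd2 hw S hS
    obtain ⟨h1, h2, -⟩ := hloc t (hT1.trans ht)
    have hup : ∀ z, ‖z - (I * t + 2)‖ ≤ 6 → ‖FF Φ d w z‖ ≤ Real.exp ((K + K') * Real.log t) * ‖FF Φ d w (I * t + 2)‖ := by
      intro z hz
      have hb : ∀ y : ℂ, ‖y - z‖ ≤ 2 → ‖Φ y‖ ≤ Real.exp (K * Real.log t) * ‖H (I * t)‖ := by
        intro y hy
        have e : y = I * t + (y - I * t) := by ring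
        rw [e]
        refine h2 _ ?_
        have e2 : y - I * t = (y - z) + (z - (I * t + 2)) + 2 := by ring
        rw [e2]
        refine (norm_add₃_le).trans ?_
        have h6 : ‖(2 : ℂ)‖ = 2 := by simp
        linarith
      have h3 := up_diff hΦd (z := z) (M := Real.exp (K * Real.log t) * ‖H (I * t)‖) hd (fun v h4 h5 => by
        have hv : |v| ≤ 1 / 2 := abs_le.2 ⟨by linarith, by linarith⟩
        have hvn : ‖(z + v) - z‖ ≤ 1 / 2 := by
          rw [add_sub_cancel_left, Complex.norm_real, Real.norm_eq_abs]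
          exact hv
        refine ⟨hb _ (by linarith), ?_⟩
        have h6 := Complex.norm_deriv_le_of_forall_mem_sphere_norm_le (f := Φ) (c := z + v) (R := 1)
          (C := Real.exp (K * Real.log t) * ‖H (I * t)‖) one_pos hΦd.diffContOnCl (fun y hy => by
            refine hb y ?_
            rw [mem_sphere_iff_norm] at hy
            have e3 : y - z = (y - (z + v)) + ((z + v) - z) := by ring
            rw [e3]
            refine (norm_add_le _ _).trans ?_
            linarith)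
        rwa [div_one] at h6) w
      have h4 := hlow t d w ht hd hd2 hw
      refine h3.trans ?_
      have h5 : Real.exp (K * Real.log t) = Real.exp ((K + K') * Real.log t) * Real.exp (-(K' * Real.log t)) := by
        rw [← Real.exp_add]
        congr 1
        ring
      rw [h5]
      calc _ = Real.exp ((K + K') * Real.log t) * ((2 * d + ‖1 - w‖) * (Real.exp (-(K' * Real.log t)) * ‖H (I * t)‖)) := by
            ring
        _ ≤ _ := mul_le_mul_of_nonneg_left h4 (Real.exp_pos _).le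
    have h6 := jcount (FF_diff hΦd d w) (c := I * t + 2) (r := 3) (R := 6) (by norm_num) (by norm_num)
      (hpos t d w ht hd hd2 hw) hup S (fun s hs => by
        obtain ⟨h7, h8⟩ := hS s hs
        have h9 : ‖s - (I * t + 2)‖ ≤ |(s - (I * t + 2)).re| + |(s - (I * t + 2)).im| := Complex.norm_le_abs_re_add_abs_im _
        have e1 : (s - (I * t + 2)).re = s.re - 2 := by simp
        have e2 : (s - (I * t + 2)).im = s.im - t := by simp
        rw [e1, e2] at h9
        have h10 : |s.re - 2| ≤ 5 / 2 := by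
          rw [abs_le] at h7 ⊢
          constructor <;> linarith [h7.1, h7.2]
        linarith)
    rw [show (6 : ℝ) / 3 = 2 by norm_num] at h6
    calc _ ≤ (K + K') * Real.log t / Real.log 2 := h6
      _ = _ := by ring
  -- the bounded part
  obtain ⟨C0, hC0, hbdd⟩ : ∃ C0 : ℝ, 0 ≤ C0 ∧ ∀ (d : ℝ) (w : ℂ), 0 < d → d ≤ 1 / 2 → ‖w‖ = 1 → ∀ S : Finset ℂ,
      (∀ s ∈ S, |s.re| ≤ 1 / 2 ∧ 0 < s.im ∧ s.im ≤ T1) →
      ∑ s ∈ S, (analyticOrderNatAt (FF Φ d w) s : ℝ) ≤ C0 := by
    obtain ⟨m1, hm1⟩ : ∃ m1 : ℝ, m1 = Real.exp (-(K' * Real.log T1)) * ‖H (I * T1)‖ := ⟨_, rfl⟩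
    have hm1p : 0 < m1 := by
      rw [hm1]
      have := (hloc T1 hT1).1
      positivity
    obtain ⟨M, hM⟩ := (isCompact_closedBall (I * T1 + 2 : ℂ) (2 * (T1 + 3) + 1)).exists_bound_of_continuousOn
      (f := Φ) hΦd.continuous.continuousOn
    have hΦ' : Differentiable ℂ (deriv Φ) := fun z => ((hΦd.analyticAt z).deriv).differentiableAt
    obtain ⟨M', hM'⟩ := (isCompact_closedBall (I * T1 + 2 : ℂ) (2 * (T1 + 3) + 1)).exists_bound_of_continuousOn
      (f := deriv Φ) hΦ'.continuous.continuousOn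
    obtain ⟨M1, hM1, hMM1, hM'M1⟩ : ∃ M1 : ℝ, m1 ≤ M1 ∧ M ≤ M1 ∧ M' ≤ M1 :=
      ⟨max m1 (max M M'), le_max_left _ _, (le_max_left _ _).trans (le_max_right _ _),
        (le_max_right _ _).trans (le_max_right _ _)⟩
    have hM1p : 0 < M1 := lt_of_lt_of_le hm1p hM1
    refine ⟨Real.log (M1 / m1) / Real.log 2, ?_, fun d w hd hd2 hw S hS => ?_⟩
    · refine div_nonneg (Real.log_nonneg ?_) hlog2.le
      rw [le_div_iff₀ hm1p, one_mul]
      exact hM1
    · have hup : ∀ z, ‖z - (I * T1 + 2)‖ ≤ 2 * (T1 + 3) →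
          ‖FF Φ d w z‖ ≤ Real.exp (Real.log (M1 / m1)) * ‖FF Φ d w (I * T1 + 2)‖ := by
        intro z hz
        have h3 := up_diff hΦd (z := z) (M := M1) hd (fun v h4 h5 => by
          have hv : |v| ≤ 1 / 2 := abs_le.2 ⟨by linarith, by linarith⟩
          have hzv : z + v ∈ closedBall (I * T1 + 2 : ℂ) (2 * (T1 + 3) + 1) := by
            rw [mem_closedBall_iff_norm]
            have e3 : z + v - (I * T1 + 2) = (z - (I * T1 + 2)) + v := by ring
            rw [e3]
            refine (norm_add_le _ _).trans ?_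
            rw [Complex.norm_real, Real.norm_eq_abs]
            linarith
          exact ⟨(hM _ hzv).trans hMM1, (hM' _ hzv).trans hM'M1⟩) w
        have h4 := hlow T1 d w le_rfl hd hd2 hw
        rw [← hm1] at h4
        rw [Real.exp_log (by positivity)]
        calc ‖FF Φ d w z‖ ≤ (2 * d + ‖1 - w‖) * M1 := h3
          _ = M1 / m1 * ((2 * d + ‖1 - w‖) * m1) := by field_simp
          _ ≤ _ := mul_le_mul_of_nonneg_left h4 (by positivity)
      have h6 := jcount (FF_diff hΦd d w) (c := I * T1 + 2) (r := T1 + 3) (R := 2 * (T1 + 3)) (by linarith) (by linarith)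
        (hpos T1 d w le_rfl hd hd2 hw) hup S (fun s hs => by
          obtain ⟨h7, h8, h9⟩ := hS s hs
          have h9 : ‖s - (I * T1 + 2)‖ ≤ |(s - (I * T1 + 2)).re| + |(s - (I * T1 + 2)).im| :=
            Complex.norm_le_abs_re_add_abs_im _
          have e1 : (s - (I * T1 + 2)).re = s.re - 2 := by simp
          have e2 : (s - (I * T1 + 2)).im = s.im - T1 := by simp
          rw [e1, e2] at h9
          have h10 : |s.re - 2| ≤ 5 / 2 := by
            rw [abs_le] at h7 ⊢
            constructor <;> linarith [h7.1, h7.2]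
          have h11 : |s.im - T1| ≤ T1 := by
            rw [abs_le]
            constructor <;> linarith
          linarith)
      rwa [show 2 * (T1 + 3) / (T1 + 3) = 2 by field_simp] at h6
  refine ⟨C0 + 4 * ((K + K') / Real.log 2) + 1, by positivity, fun d T w hd hd2 hw hT S hS => ?_⟩
  have hTl : Real.log 2 ≤ Real.log T := Real.log_le_log (by norm_num) hT
  have hlogT : 0 < Real.log T := lt_of_lt_of_le hlog2 hTl
  have hT0' : 0 < T := by linarith
  have hTlog1 : 1 ≤ T * Real.log T := by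
    have h1 : (1 / 2 : ℝ) ≤ Real.log 2 := by
      have := Real.log_two_gt_d9
      linarith
    nlinarith
  rw [← Finset.sum_filter_add_sum_filter_not S (fun s => s.im ≤ T1)]
  have h1 : ∑ s ∈ S.filter (fun s => s.im ≤ T1), (analyticOrderNatAt (FF Φ d w) s : ℝ) ≤ C0 := by
    refine hbdd d w hd hd2 hw _ fun s hs => ?_
    obtain ⟨h2, h3⟩ := Finset.mem_filter.1 hs
    obtain ⟨h4, h5, -⟩ := hS s h2
    exact ⟨h4, h5, h3⟩
  have h2 : ∑ s ∈ S.filter (fun s => ¬ s.im ≤ T1), (analyticOrderNatAt (FF Φ d w) s : ℝ) ≤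
      4 * ((K + K') / Real.log 2) * T * Real.log T := by
    obtain ⟨S', hS'⟩ : ∃ S' : Finset ℂ, S' = S.filter (fun s => ¬ s.im ≤ T1) := ⟨_, rfl⟩
    rw [← hS']
    have hmem : ∀ s ∈ S', |s.re| ≤ 1 / 2 ∧ T1 < s.im ∧ s.im ≤ T := by
      intro s hs
      rw [hS', Finset.mem_filter, not_le] at hs
      obtain ⟨h4, h5, h6⟩ := hS s hs.1
      exact ⟨h4, hs.2, h6⟩
    obtain ⟨n, hn⟩ : ∃ n : ℕ, n = ⌊T⌋₊ + 1 := ⟨_, rfl⟩
    have hmaps : ∀ s ∈ S', ⌊s.im - T1⌋₊ ∈ Finset.range n := by
      intro s hs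
      obtain ⟨-, h4, h5⟩ := hmem s hs
      rw [Finset.mem_range, hn]
      have : ⌊s.im - T1⌋₊ ≤ ⌊T⌋₊ := Nat.floor_le_floor (by linarith)
      omega
    rw [← Finset.sum_fiberwise_of_maps_to hmaps]
    have hone : ∀ j ∈ Finset.range n, ∑ s ∈ S' with ⌊s.im - T1⌋₊ = j, (analyticOrderNatAt (FF Φ d w) s : ℝ) ≤
        (K + K') / Real.log 2 * (2 * Real.log T) := by
      intro j _
      rcases (S'.filter (fun s => ⌊s.im - T1⌋₊ = j)).eq_empty_or_nonempty with hemp | ⟨s0, hs0⟩
      · rw [hemp, Finset.sum_empty]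
        positivity
      · have hfl : ∀ s ∈ S'.filter (fun s => ⌊s.im - T1⌋₊ = j), (j : ℝ) ≤ s.im - T1 ∧ s.im - T1 < j + 1 := by
          intro s hs
          obtain ⟨h4, h5⟩ := Finset.mem_filter.1 hs
          obtain ⟨-, h6, -⟩ := hmem s h4
          rw [← h5]
          exact ⟨Nat.floor_le (by linarith), Nat.lt_floor_add_one _⟩
        have h7 := hfl s0 hs0
        have h8 := (hmem s0 (Finset.mem_filter.1 hs0).1).2.2
        obtain ⟨t, ht⟩ : ∃ t : ℝ, t = T1 + j + 1 / 2 := ⟨_, rfl⟩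
        have hj0 : (0 : ℝ) ≤ j := Nat.cast_nonneg j
        have h9 := hwin t d w (by rw [ht]; linarith) hd hd2 hw (S'.filter (fun s => ⌊s.im - T1⌋₊ = j)) (fun s hs => by
          obtain ⟨h10, h11⟩ := hfl s hs
          refine ⟨(hmem s (Finset.mem_filter.1 hs).1).1, ?_⟩
          rw [ht, abs_le]
          constructor <;> linarith)
        refine h9.trans (mul_le_mul_of_nonneg_left ?_ (by positivity))
        have h12 : t ≤ T ^ 2 := by
          rw [ht]
          nlinarith
        have h13 : Real.log t ≤ Real.log (T ^ 2) := Real.log_le_log (by rw [ht]; linarith) h12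
        rw [Real.log_pow] at h13
        push_cast at h13
        exact h13
    refine (Finset.sum_le_sum hone).trans ?_
    rw [Finset.sum_const, Finset.card_range, nsmul_eq_mul]
    have h14 : (n : ℝ) ≤ 2 * T := by
      rw [hn]
      push_cast
      have := Nat.floor_le hT0'.le
      linarith
    have h15 : 0 ≤ (K + K') / Real.log 2 * (2 * Real.log T) := by positivity
    calc (n : ℝ) * ((K + K') / Real.log 2 * (2 * Real.log T)) ≤ 2 * T * ((K + K') / Real.log 2 * (2 * Real.log T)) :=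
          mul_le_mul_of_nonneg_right h14 h15
      _ = _ := by ring
  have h3 : C0 ≤ C0 * (T * Real.log T) := le_mul_of_one_le_right hC0 hTlog1
  have h4 : 0 ≤ T * Real.log T := by positivity
  calc _ ≤ C0 + 4 * ((K + K') / Real.log 2) * T * Real.log T := add_le_add h1 h2
    _ ≤ C0 * (T * Real.log T) + 4 * ((K + K') / Real.log 2) * T * Real.log T + T * Real.log T := by linarith
    _ = _ := by ring

end Pool.Agent.P8H74.SD
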