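import Mathlib
import Pool.Agent.P8H74.SD.Cov
import Pool.Agent.P8H74.SD.Triv2

set_option autoImplicit false

/-!
# The zeros of the differences off the line
-/

namespace Pool.Agent.P8H74.SD

open MeasureTheory Complex Filter Topology Metric Set
open Pool.Agent.R838.TW (Sy)
open Pool.Agent.Y22.RX (S)
open Pool.Agent.Y671.GL (CF)
open scoped ComplexConjugate

/-! ### symmetry of the orders -/

/-- reflection in the imaginary axis -/
noncomputable def rf (f : ℂ → ℂ) (z : ℂ) : ℂ := conj (f (-(conj z)))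

theorem rf_diff {f : ℂ → ℂ} (hf : Differentiable ℂ f) : Differentiable ℂ (rf f) := by
  intro z
  obtain ⟨g, hg⟩ : ∃ g : ℂ → ℂ, g = fun y => f (-y) := ⟨_, rfl⟩
  have hgd : Differentiable ℂ g := by
    rw [hg]
    exact hf.comp (by fun_prop)
  have h1 := ((hgd (conj z)).hasDerivAt).conj_conj
  rw [Complex.conj_conj] at h1
  have h2 : (conj ∘ g ∘ conj) = rf f := by
    funext y
    rw [hg]
    rfl
  rw [h2] at h1
  exact h1.differentiableAt

theorem ord_rf {f : ℂ → ℂ} (hf : Differentiable ℂ f) (s : ℂ) :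
    analyticOrderAt (rf f) s = analyticOrderAt f (-(conj s)) := by
  have hcont : Continuous (fun s : ℂ => -(conj s)) := by fun_prop
  have h := hf.analyticAt (-(conj s))
  rcases eq_or_ne (analyticOrderAt f (-(conj s))) ⊤ with h0 | h0
  · rw [h0, analyticOrderAt_eq_top]
    rw [analyticOrderAt_eq_top] at h0
    have h2 := (hcont.tendsto s).eventually h0
    filter_upwards [h2] with z hz
    simp [rf, hz]
  · obtain ⟨n, hn⟩ := ENat.ne_top_iff_exists.mp h0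
    rw [← hn]
    obtain ⟨g, hg, hg0, hfg⟩ := (h.analyticOrderAt_eq_natCast).mp hn.symm
    have hgr : AnalyticAt ℂ (rf g) s := by
      rw [analyticAt_iff_eventually_differentiableAt] at hg ⊢
      have h2 := (hcont.tendsto s).eventually hg
      filter_upwards [h2] with z hz
      have h3 : DifferentiableAt ℂ (fun y => g (-y)) (conj z) := by
        have h4 : DifferentiableAt ℂ g (-(conj z)) := hz
        exact h4.comp (conj z) (differentiableAt_id.neg)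
      have h5 := (h3.hasDerivAt).conj_conj
      rw [Complex.conj_conj] at h5
      exact h5.differentiableAt
    rw [((rf_diff hf).analyticAt s).analyticOrderAt_eq_natCast]
    refine ⟨fun z => (-1) ^ n * rf g z, analyticAt_const.mul hgr, ?_, ?_⟩
    · simp [rf, hg0]
    · have h2 := (hcont.tendsto s).eventually hfg
      filter_upwards [h2] with z hz
      simp only [rf, hz, smul_eq_mul, map_mul, map_pow, map_sub, map_neg, Complex.conj_conj]
      rw [← mul_assoc, ← mul_pow]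
      congr 2
      ring

theorem FF_ord {Φ : ℂ → ℂ} (h : Sy Φ) (d : ℝ) {w : ℂ} (hw : ‖w‖ = 1) (s : ℂ) :
    analyticOrderNatAt (FF Φ d w) (-(conj s)) = analyticOrderNatAt (FF Φ d w) s := by
  have hd := FF_diff h.diff d w
  have h1 : FF Φ d w = fun z => (-w) * rf (FF Φ d w) z := by
    funext z
    have h2 := FF_symm h d hw (-(conj z))
    have e : -(conj (-(conj z))) = z := by simp
    rw [e] at h2
    exact h2
  have hw0 : -w ≠ 0 := by
    intro h0
    rw [neg_eq_zero] at h0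
    rw [h0, norm_zero] at hw
    exact zero_ne_one hw
  have h2 : analyticOrderNatAt (FF Φ d w) s = analyticOrderNatAt (rf (FF Φ d w)) s := by
    conv_lhs => rw [h1]
    exact order_const_mul hw0 s ((rf_diff hd).analyticAt s)
  rw [h2]
  unfold analyticOrderNatAt
  rw [ord_rf hd]

/-! ### counting -/

theorem cnt_mono {f : ℂ → ℂ} {A B : Set ℂ} (hB : B.Finite) (h : A ⊆ B) : cnt A f ≤ cnt B f := by
  classical
  unfold cnt
  rw [finsum_mem_eq_finite_toFinset_sum _ (hB.subset h), finsum_mem_eq_finite_toFinset_sum _ hB]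
  exact Finset.sum_le_sum_of_subset (Set.Finite.toFinset_subset_toFinset.2 h)

theorem cnt_union_le {f : ℂ → ℂ} {A B : Set ℂ} (hA : A.Finite) (hB : B.Finite) : cnt (A ∪ B) f ≤ cnt A f + cnt B f := by
  unfold cnt
  have h1 := finsum_mem_union_inter (f := fun z => analyticOrderNatAt f z) hA hB
  omega

/-- the zeros off the line with imaginary part in `(0, T]` -/
def Offz (f : ℂ → ℂ) (T : ℝ) : Set ℂ := {s | f s = 0 ∧ s.re ≠ 0 ∧ 0 < s.im ∧ s.im ≤ T}

/-- all hypotheses -/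
structure Hyp (Φ : ℂ → ℂ) : Prop where
  sy : Sy Φ
  hz : ∃ z, Φ z = 0
  strip : ∀ b, Φ b = 0 → |b.re| ≤ 1 / 2
  dens : ∀ c : ℝ, c < 1 → ∃ C : ℝ, 0 < C ∧ ∀ d T : ℝ, 0 ≤ d → 2 ≤ T →
      (cnt (S Φ d T) Φ : ℝ) ≤ C * T ^ (1 - c * d) * Real.log T
  cf : ∃ (κ : ℝ) (H Z : ℂ → ℂ), CF κ H Φ Z

variable {Φ : ℂ → ℂ}

theorem Hyp.sq (h : Hyp Φ) {b : ℂ} (hb : Φ b = 0) : b.re ^ 2 ≤ 1 / 4 := by
  have := abs_le.1 (h.strip b hb)
  nlinarith

theorem Hyp.strip_FF (h : Hyp Φ) {d : ℝ} (hd : 0 < d) {w : ℂ} (hw : ‖w‖ = 1) {s : ℂ} (hs : FF Φ d w s = 0) :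
    |s.re| ≤ 1 / 2 := by
  by_contra hlt
  push Not at hlt
  refine FF_ne' h.sy h.hz h.strip (s := s) ?_ hd hw (fun b hb => ?_) hs
  · intro h0
    rw [h0, abs_zero] at hlt
    linarith
  · have h1 := h.sq hb
    have h2 : (1 / 2 : ℝ) ^ 2 < s.re ^ 2 := by
      rw [← sq_abs s.re]
      exact pow_lt_pow_left₀ hlt (by norm_num) two_ne_zero
    nlinarith [sq_nonneg (s.im - b.im), sq_nonneg d]

theorem Hyp.FF_ex (h : Hyp Φ) {d : ℝ} (hd : 0 < d) {w : ℂ} (hw : ‖w‖ = 1) : ∃ z, FF Φ d w z ≠ 0 := by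
  refine ⟨1, fun h0 => ?_⟩
  have := h.strip_FF hd hw h0
  norm_num at this

theorem Hyp.FF_fin (h : Hyp Φ) {d : ℝ} (hd : 0 < d) {w : ℂ} (hw : ‖w‖ = 1) (t1 t2 : ℝ) :
    {s | FF Φ d w s = 0 ∧ t1 ≤ s.im ∧ s.im ≤ t2}.Finite := by
  have hK : IsCompact (Icc (-(1 / 2) : ℝ) (1 / 2) ×ℂ Icc t1 t2) := isCompact_Icc.reProdIm isCompact_Icc
  refine (fin_zeros (FF_diff h.sy.diff d w) (h.FF_ex hd hw) hK).subset ?_
  rintro b ⟨h1, h2, h3⟩
  refine ⟨?_, h1⟩
  rw [mem_reProdIm]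
  have := abs_le.1 (h.strip_FF hd hw h1)
  exact ⟨⟨this.1, this.2⟩, h2, h3⟩

theorem Hyp.off_fin (h : Hyp Φ) {d : ℝ} (hd : 0 < d) {w : ℂ} (hw : ‖w‖ = 1) (T : ℝ) :
    (Offz (FF Φ d w) T).Finite :=
  (h.FF_fin hd hw 0 T).subset fun _ hs => ⟨hs.1, hs.2.2.1.le, hs.2.2.2⟩

/-- the trivial bound -/
theorem Hyp.triv (h : Hyp Φ) : ∃ C : ℝ, 0 < C ∧ ∀ (d T : ℝ) (w : ℂ), 0 < d → d ≤ 1 / 2 → ‖w‖ = 1 → 2 ≤ T →
    (cnt (Offz (FF Φ d w) T) (FF Φ d w) : ℝ) ≤ C * T * Real.log T := by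
  classical
  obtain ⟨κ, H, Z, hC⟩ := h.cf
  obtain ⟨C, hC0, h1⟩ := Pool.Agent.P8H74.SD.triv hC
  refine ⟨C, hC0, fun d T w hd hd2 hw hT => ?_⟩
  have hfin := h.off_fin hd hw T
  have h2 := h1 d T w hd hd2 hw hT hfin.toFinset (fun s hs => by
    rw [Set.Finite.mem_toFinset] at hs
    exact ⟨h.strip_FF hd hw hs.1, hs.2.2.1, hs.2.2.2⟩)
  refine le_trans (le_of_eq ?_) h2
  rw [cnt_eq_sum (FF_diff h.sy.diff d w) (Z := hfin.toFinset) (U := Offz (FF Φ d w) T) (fun z hz _ => by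
    rw [Set.Finite.mem_toFinset]; exact hz) (fun z hz => by
    rw [Set.Finite.mem_toFinset] at hz; exact hz)]
  push_cast
  rfl

/-- both sides of the line, between good heights -/
theorem Hyp.window2 (h : Hyp Φ) {d : ℝ} (hd : 0 < d) {w : ℂ} (hw : ‖w‖ = 1) {t1 t2 : ℝ} (h12 : t1 < t2)
    (g1 : ∀ b, Φ b = 0 → b.re ^ 2 < d ^ 2 + (t1 - b.im) ^ 2)
    (g2 : ∀ b, Φ b = 0 → b.re ^ 2 < d ^ 2 + (t2 - b.im) ^ 2) :
    cnt {s | FF Φ d w s = 0 ∧ s.re ≠ 0 ∧ t1 < s.im ∧ s.im < t2} (FF Φ d w) ≤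
      2 * cnt {s | Φ s = 0 ∧ d ≤ s.re ∧ t1 < s.im ∧ s.im < t2} Φ := by
  have hFd := FF_diff h.sy.diff d w
  have hfin := h.FF_fin hd hw t1 t2
  have hw1 := window h.sy h.hz h.strip hd hw h12 g1 g2
  have e1 : cnt {s | 0 < s.re ∧ t1 < s.im ∧ s.im < t2} (FF Φ d w) =
      cnt {s | FF Φ d w s = 0 ∧ 0 < s.re ∧ t1 < s.im ∧ s.im < t2} (FF Φ d w) :=
    cnt_congr hFd fun z hz => ⟨fun h1 => ⟨hz, h1⟩, fun h1 => h1.2⟩
  have e2 : cnt {s | d ≤ s.re ∧ t1 < s.im ∧ s.im < t2} Φ =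
      cnt {s | Φ s = 0 ∧ d ≤ s.re ∧ t1 < s.im ∧ s.im < t2} Φ :=
    cnt_congr h.sy.diff fun z hz => ⟨fun h1 => ⟨hz, h1⟩, fun h1 => h1.2⟩
  rw [e1, e2] at hw1
  obtain ⟨P, hP⟩ : ∃ P : Set ℂ, P = {s | FF Φ d w s = 0 ∧ 0 < s.re ∧ t1 < s.im ∧ s.im < t2} := ⟨_, rfl⟩
  rw [← hP] at hw1
  have hPfin : P.Finite := by
    rw [hP]
    exact hfin.subset fun s hs => ⟨hs.1, hs.2.2.1.le, hs.2.2.2.le⟩
  obtain ⟨N, hN⟩ : ∃ N : Set ℂ, N = (fun s : ℂ => -(conj s)) '' P := ⟨_, rfl⟩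
  have hNfin : N.Finite := by
    rw [hN]
    exact hPfin.image _
  have hNc : cnt N (FF Φ d w) = cnt P (FF Φ d w) := by
    unfold cnt
    rw [hN, finsum_mem_image (fun a _ b _ hab => by
      have h1 : conj a = conj b := neg_injective hab
      exact (starRingEnd ℂ).injective h1)]
    exact finsum_mem_congr rfl fun z _ => FF_ord h.sy d hw z
  have hsub : {s | FF Φ d w s = 0 ∧ s.re ≠ 0 ∧ t1 < s.im ∧ s.im < t2} ⊆ P ∪ N := by
    rintro s ⟨h1, h2, h3, h4⟩
    rcases lt_or_gt_of_ne h2 with h5 | h5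
    · right
      rw [hN]
      refine ⟨-(conj s), ?_, by simp⟩
      rw [hP]
      refine ⟨?_, by simpa using h5, by simpa using h3, by simpa using h4⟩
      rw [FF_symm h.sy d hw, h1, map_zero, mul_zero]
    · left
      rw [hP]
      exact ⟨h1, h5, h3, h4⟩
  have h1 := cnt_mono (f := FF Φ d w) (hPfin.union hNfin) hsub
  have h2 := cnt_union_le (f := FF Φ d w) hPfin hNfin
  omega

/-- **The number of zeros of the differences off the line.** -/
theorem Hyp.count (h : Hyp Φ) {c : ℝ} (hc : c < 1) : ∃ C : ℝ, 0 < C ∧ ∀ (d T : ℝ) (w : ℂ), 0 < d → ‖w‖ = 1 → 2 ≤ T →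
    (cnt (Offz (FF Φ d w) T) (FF Φ d w) : ℝ) ≤ C * T ^ (1 - c * d) * Real.log T := by
  obtain ⟨c1, hc1, hcc1, hc11⟩ : ∃ c1 : ℝ, 0 ≤ c1 ∧ c ≤ c1 ∧ c1 < 1 :=
    ⟨max c 0, le_max_right _ _, le_max_left _ _, max_lt hc one_pos⟩
  obtain ⟨C1, hC1, htriv⟩ := h.triv
  obtain ⟨C2, hC2, hdens⟩ := h.dens c1 hc11
  obtain ⟨K0, hK0, hgood0⟩ := exists_good h.sy h.strip h.dens
  obtain ⟨K, hK1, hgood⟩ : ∃ K : ℝ, 1 ≤ K ∧ ∀ d T : ℝ, 0 < d → 2 ≤ T → K ≤ d * Real.log T →
      ∃ t, T < t ∧ t < 2 * T ∧ ∀ b, Φ b = 0 → b.re ^ 2 < d ^ 2 + (t - b.im) ^ 2 :=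
    ⟨max K0 1, le_max_right _ _, fun d T hd hT hK => hgood0 d T hd hT ((le_max_left _ _).trans hK)⟩
  refine ⟨2 * Real.exp K * C1 + 8 * C2, by positivity, fun d T w hd hw hT => ?_⟩
  have hT0 : 0 < T := by linarith
  have hT1 : 1 ≤ T := by linarith
  have hlog : 0 < Real.log T := Real.log_pos (by linarith)
  rcases lt_or_ge (1 / 2) d with hd2 | hd2
  · have hemp : Offz (FF Φ d w) T = ∅ := by
      rw [Set.eq_empty_iff_forall_notMem]
      rintro s ⟨h1, h2, -, -⟩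
      exact h2 ((crit h.sy h.hz h.strip hd).2 (fun b hb => (h.strip b hb).trans hd2.le) w hw s h1)
    have h0 : cnt (Offz (FF Φ d w) T) (FF Φ d w) = 0 := by
      rw [hemp]
      unfold cnt
      simp
    rw [h0, Nat.cast_zero]
    positivity
  -- exponents
  have hexp0 : 0 ≤ 1 - c1 * d := by nlinarith
  have hmain : (cnt (Offz (FF Φ d w) T) (FF Φ d w) : ℝ) ≤ (2 * Real.exp K * C1 + 8 * C2) * T ^ (1 - c1 * d) * Real.log T := by
    obtain ⟨T0, hT0'⟩ : ∃ T0 : ℝ, T0 = Real.exp (K / d) := ⟨_, rfl⟩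
    have hT0p : 0 < T0 := by rw [hT0']; exact Real.exp_pos _
    have hKd : 2 ≤ K / d := by
      rw [le_div_iff₀ hd]
      linarith
    have hT02 : 2 ≤ T0 := by
      rw [hT0']
      have h1 := Real.add_one_le_exp (K / d)
      linarith
    have hlogT0 : Real.log T0 = K / d := by rw [hT0', Real.log_exp]
    have hdK : d * Real.log T0 = K := by
      rw [hlogT0]
      field_simp
    -- `Y ≤ 2 T0` implies `Y ^ (c1 d) ≤ 2 e ^ K`
    have hsmall : ∀ Y : ℝ, 1 ≤ Y → Y ≤ 2 * T0 → Y ≤ 2 * Real.exp K * Y ^ (1 - c1 * d) := by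
      intro Y hY1 hY2
      have hY0 : 0 < Y := by linarith
      have h1 : Y ^ (c1 * d) ≤ 2 * Real.exp K := by
        have h2 : Y ^ (c1 * d) ≤ (2 * T0) ^ (c1 * d) := Real.rpow_le_rpow hY0.le hY2 (by positivity)
        rw [Real.mul_rpow (by norm_num) hT0p.le] at h2
        have h3 : (2 : ℝ) ^ (c1 * d) ≤ 2 := by
          calc (2 : ℝ) ^ (c1 * d) ≤ (2 : ℝ) ^ (1 : ℝ) := Real.rpow_le_rpow_of_exponent_le (by norm_num) (by nlinarith)
            _ = 2 := Real.rpow_one 2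
        have h4 : T0 ^ (c1 * d) ≤ Real.exp K := by
          rw [Real.rpow_def_of_pos hT0p]
          apply Real.exp_le_exp.2
          have h5 : Real.log T0 * (c1 * d) = c1 * K := by
            rw [← hdK]; ring
          rw [h5]
          nlinarith
        exact h2.trans (mul_le_mul h3 h4 (by positivity) (by norm_num))
      have h6 : Y = Y ^ (c1 * d) * Y ^ (1 - c1 * d) := by
        rw [← Real.rpow_add hY0]
        simp
      calc Y = Y ^ (c1 * d) * Y ^ (1 - c1 * d) := h6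
        _ ≤ 2 * Real.exp K * Y ^ (1 - c1 * d) := mul_le_mul_of_nonneg_right h1 (by positivity)
    have hTp : 0 < T ^ (1 - c1 * d) := Real.rpow_pos_of_pos hT0 _
    rcases le_or_gt T (2 * T0) with hcase | hcase
    · have h1 := htriv d T w hd hd2 hw hT
      have h2 := hsmall T hT1 hcase
      calc (cnt (Offz (FF Φ d w) T) (FF Φ d w) : ℝ) ≤ C1 * T * Real.log T := h1
        _ ≤ C1 * (2 * Real.exp K * T ^ (1 - c1 * d)) * Real.log T := by gcongr
        _ ≤ (2 * Real.exp K * C1 + 8 * C2) * T ^ (1 - c1 * d) * Real.log T := by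
            have : 0 ≤ 8 * C2 * T ^ (1 - c1 * d) * Real.log T := by positivity
            linarith
    · obtain ⟨t1, ht1, ht1', g1⟩ := hgood d T0 hd hT02 hdK.ge
      obtain ⟨t2, ht2, ht2', g2⟩ := hgood d T hd hT (by
        rw [← hdK]
        exact mul_le_mul_of_nonneg_left (Real.log_le_log hT0p (by linarith)) hd.le)
      have h12 : t1 < t2 := by linarith
      have hw2 := h.window2 hd hw h12 g1 g2
      have hsub : Offz (FF Φ d w) T ⊆ Offz (FF Φ d w) (2 * T0) ∪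
          {s | FF Φ d w s = 0 ∧ s.re ≠ 0 ∧ t1 < s.im ∧ s.im < t2} := by
        rintro s ⟨h1, h2, h3, h4⟩
        rcases le_or_gt s.im t1 with h5 | h5
        · exact Or.inl ⟨h1, h2, h3, by linarith⟩
        · exact Or.inr ⟨h1, h2, h5, by linarith⟩
      have hf1 := h.off_fin hd hw (2 * T0)
      have hf2 : {s | FF Φ d w s = 0 ∧ s.re ≠ 0 ∧ t1 < s.im ∧ s.im < t2}.Finite :=
        (h.FF_fin hd hw t1 t2).subset fun s hs => ⟨hs.1, hs.2.2.1.le, hs.2.2.2.le⟩
      have h1 := (cnt_mono (f := FF Φ d w) (hf1.union hf2) hsub).trans (cnt_union_le hf1 hf2)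
      have h2 := htriv d (2 * T0) w hd hd2 hw (by linarith)
      have h3 : cnt {s | Φ s = 0 ∧ d ≤ s.re ∧ t1 < s.im ∧ s.im < t2} Φ ≤ cnt (S Φ d (2 * T)) Φ := by
        refine cnt_mono (fin_S h.sy h.strip d (2 * T)) ?_
        rintro s ⟨h4, h5, h6, h7⟩
        refine ⟨h4, ?_, by linarith, by linarith⟩
        exact h5.trans (le_abs_self _)
      have h4 := hdens d (2 * T) hd.le (by linarith)
      have h5 : C1 * (2 * T0) * Real.log (2 * T0) ≤ 2 * Real.exp K * C1 * T ^ (1 - c1 * d) * Real.log T := by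
        have h6 := hsmall (2 * T0) (by linarith) le_rfl
        have h7 : (2 * T0) ^ (1 - c1 * d) ≤ T ^ (1 - c1 * d) := Real.rpow_le_rpow (by positivity) hcase.le hexp0
        have h8 : Real.log (2 * T0) ≤ Real.log T := Real.log_le_log (by positivity) hcase.le
        have h9 : 0 ≤ Real.log (2 * T0) := Real.log_nonneg (by linarith)
        calc C1 * (2 * T0) * Real.log (2 * T0) ≤ C1 * (2 * Real.exp K * T ^ (1 - c1 * d)) * Real.log T := by
              refine mul_le_mul ?_ h8 h9 (by positivity)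
              refine mul_le_mul_of_nonneg_left (h6.trans ?_) hC1.le
              exact mul_le_mul_of_nonneg_left h7 (by positivity)
          _ = _ := by ring
      have h6 : C2 * (2 * T) ^ (1 - c1 * d) * Real.log (2 * T) ≤ 4 * C2 * T ^ (1 - c1 * d) * Real.log T := by
        have h7 : (2 * T) ^ (1 - c1 * d) ≤ 2 * T ^ (1 - c1 * d) := by
          rw [Real.mul_rpow (by norm_num) hT0.le]
          refine mul_le_mul_of_nonneg_right ?_ hTp.le
          calc (2 : ℝ) ^ (1 - c1 * d) ≤ (2 : ℝ) ^ (1 : ℝ) :=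
                Real.rpow_le_rpow_of_exponent_le (by norm_num) (by nlinarith)
            _ = 2 := Real.rpow_one 2
        have h8 : Real.log (2 * T) ≤ 2 * Real.log T := by
          rw [Real.log_mul (by norm_num) hT0.ne']
          have : Real.log 2 ≤ Real.log T := Real.log_le_log (by norm_num) hT
          linarith
        have h9 : 0 ≤ Real.log (2 * T) := Real.log_nonneg (by linarith)
        calc C2 * (2 * T) ^ (1 - c1 * d) * Real.log (2 * T) ≤ C2 * (2 * T ^ (1 - c1 * d)) * (2 * Real.log T) := by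
              gcongr
          _ = _ := by ring
      have h7 : (cnt (Offz (FF Φ d w) T) (FF Φ d w) : ℝ) ≤ (cnt (Offz (FF Φ d w) (2 * T0)) (FF Φ d w) : ℝ) +
          2 * (cnt (S Φ d (2 * T)) Φ : ℝ) := by
        have : cnt (Offz (FF Φ d w) T) (FF Φ d w) ≤ cnt (Offz (FF Φ d w) (2 * T0)) (FF Φ d w) +
            2 * cnt (S Φ d (2 * T)) Φ := by omega
        exact_mod_cast this
      calc _ ≤ _ := h7
        _ ≤ 2 * Real.exp K * C1 * T ^ (1 - c1 * d) * Real.log T + 2 * (4 * C2 * T ^ (1 - c1 * d) * Real.log T) := by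
            linarith
        _ = _ := by ring
  refine hmain.trans ?_
  have h1 : T ^ (1 - c1 * d) ≤ T ^ (1 - c * d) := by
    refine Real.rpow_le_rpow_of_exponent_le hT1 ?_
    have := mul_le_mul_of_nonneg_right hcc1 hd.le
    linarith
  gcongr

/-- the heights at which some difference with a shift `≥ d` has a zero off the line -/
theorem Hyp.heights (h : Hyp Φ) {c : ℝ} (hc : c < 1) : ∃ C : ℝ, 0 < C ∧ ∀ d T : ℝ, 0 < d → 2 ≤ T →
    volume {t : ℝ | 0 ≤ t ∧ t ≤ T ∧ ∃ (e : ℝ) (w s : ℂ), d ≤ e ∧ ‖w‖ = 1 ∧ FF Φ e w s = 0 ∧ s.re ≠ 0 ∧ s.im = t} ≤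
      ENNReal.ofReal (C * T ^ (1 - c * d)) := by
  obtain ⟨C, hC, h1⟩ := bad_meas h.sy h.strip h.dens hc
  refine ⟨C, hC, fun d T hd hT => le_trans (measure_mono ?_) (h1 d T hd.le hT)⟩
  rintro t ⟨h0, h2, e, w, s, hde, hw, hs, hre, him⟩
  by_contra hgood
  have h3 := good_ineq hd h0 h2 hgood
  refine FF_ne' h.sy h.hz h.strip hre (by linarith) hw (fun b hb => ?_) hs
  have h4 := h3 b hb
  have h5 : d ^ 2 ≤ e ^ 2 := pow_le_pow_left₀ hd.le hde 2
  rw [him]
  nlinarith [sq_nonneg s.re]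

end Pool.Agent.P8H74.SD
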