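import Mathlib
import Pool.Agent.P8H74.SD.Fin

set_option autoImplicit false

/-!
# The final statements in other coordinates
-/

namespace Pool.Agent.P8H74.SD

open MeasureTheory Complex Filter Topology Metric Set
open scoped ComplexConjugate

theorem cnt_affine {F : ℂ → ℂ} (hF : Differentiable ℂ F) {v a b : ℂ} (hv : v ≠ 0) (ha : a ≠ 0) (A : Set ℂ) :
    cnt A (fun z => v * F (a * z + b)) = cnt ((fun z => a * z + b) '' A) F := by
  unfold cnt
  rw [finsum_mem_image (fun x _ y _ hxy => by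
    have h1 : a * x = a * y := add_right_cancel hxy
    exact mul_left_cancel₀ ha h1)]
  refine finsum_mem_congr rfl fun z _ => ?_
  have hd : Differentiable ℂ (fun z : ℂ => F (a * z + b)) := hF.comp (by fun_prop)
  rw [order_const_mul hv z (hd.analyticAt z)]
  unfold analyticOrderNatAt
  have h1 : AnalyticAt ℂ (fun s : ℂ => a * s + b) z := by fun_prop
  have h2 : deriv (fun s : ℂ => a * s + b) z ≠ 0 := by
    have h3 : HasDerivAt (fun s : ℂ => a * s + b) (a * 1) z := ((hasDerivAt_id z).const_mul a).add_const b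
    rw [h3.deriv, mul_one]
    exact ha
  have h3 := analyticOrderAt_comp_of_deriv_ne_zero (f := F) h1 h2
  have h4 : (F ∘ fun s : ℂ => a * s + b) = fun s => F (a * s + b) := rfl
  rw [h4] at h3
  rw [h3]

variable {Φ : ℂ → ℂ}

/-! ### the line is the real line -/

section rot

variable {G : ℂ → ℂ} {v : ℂ}

theorem rot_FF (hG : ∀ z, G z = v * Φ (I * z)) (d : ℝ) (w z : ℂ) :
    G (z - I * d) - w * G (z + I * d) = v * FF Φ d w (I * z) := by
  unfold FF
  rw [hG, hG]
  have e1 : I * (z - I * d) = I * z + d := by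
    have := Complex.I_mul_I
    linear_combination (-(d : ℂ)) * this
  have e2 : I * (z + I * d) = I * z - d := by
    have := Complex.I_mul_I
    linear_combination (d : ℂ) * this
  rw [e1, e2]
  ring

theorem rot_crit (h : Hyp Φ) (hv : v ≠ 0) (hG : ∀ z, G z = v * Φ (I * z)) {d : ℝ} (hd : 0 < d) :
    (∀ w : ℂ, ‖w‖ = 1 → ∀ z, G (z - I * d) - w * G (z + I * d) = 0 → z.im = 0) ↔ ∀ z, G z = 0 → |z.im| ≤ d := by
  have h1 := crit h.sy h.hz h.strip hd
  have e1 : (∀ w : ℂ, ‖w‖ = 1 → ∀ z, G (z - I * d) - w * G (z + I * d) = 0 → z.im = 0) ↔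
      ∀ w : ℂ, ‖w‖ = 1 → ∀ s, FF Φ d w s = 0 → s.re = 0 := by
    constructor
    · intro h2 w hw s hs
      have e : I * (-I * s) = s := by
        have := Complex.I_mul_I
        linear_combination (-s) * this
      have h3 := h2 w hw (-I * s) (by rw [rot_FF hG, e, hs, mul_zero])
      simpa using h3
    · intro h2 w hw z hz
      rw [rot_FF hG] at hz
      have h3 := h2 w hw (I * z) ((mul_eq_zero.1 hz).resolve_left hv)
      simpa using h3
  have e2 : (∀ z, G z = 0 → |z.im| ≤ d) ↔ ∀ b, Φ b = 0 → |b.re| ≤ d := by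
    constructor
    · intro h2 b hb
      have e : I * (-I * b) = b := by
        have := Complex.I_mul_I
        linear_combination (-b) * this
      have h3 := h2 (-I * b) (by rw [hG, e, hb, mul_zero])
      simpa using h3
    · intro h2 z hz
      rw [hG] at hz
      have h3 := h2 (I * z) ((mul_eq_zero.1 hz).resolve_left hv)
      simpa using h3
  rw [e1, e2]
  exact h1

/-- zeros off the real line -/
def OffR (G : ℂ → ℂ) (d : ℝ) (w : ℂ) (T : ℝ) : Set ℂ :=
  {z | G (z - I * d) - w * G (z + I * d) = 0 ∧ z.im ≠ 0 ∧ 0 < z.re ∧ z.re ≤ T}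

theorem rot_count (h : Hyp Φ) (hv : v ≠ 0) (hG : ∀ z, G z = v * Φ (I * z)) {c : ℝ} (hc : c < 1) :
    ∃ C : ℝ, 0 < C ∧ ∀ (d T : ℝ) (w : ℂ), 0 < d → 2 ≤ T → ‖w‖ = 1 → (OffR G d w T).Finite ∧
      ((∑ᶠ z ∈ OffR G d w T, analyticOrderNatAt (fun z => G (z - I * d) - w * G (z + I * d)) z : ℕ) : ℝ) ≤
        C * T ^ (1 - c * d) * Real.log T := by
  obtain ⟨C, hC, h1⟩ := h.count hc
  refine ⟨C, hC, fun d T w hd hT hw => ?_⟩
  have e1 : (fun z => G (z - I * d) - w * G (z + I * d)) = fun z => v * FF Φ d w (I * z + 0) := by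
    funext z
    rw [rot_FF hG, add_zero]
  have e2 : (fun z : ℂ => I * z + 0) '' OffR G d w T = Offz (FF Φ d w) T := by
    ext s
    constructor
    · rintro ⟨z, ⟨h2, h3, h4, h5⟩, rfl⟩
      rw [rot_FF hG] at h2
      refine ⟨?_, ?_, ?_, ?_⟩
      · show FF Φ d w (I * z + 0) = 0
        rw [add_zero]
        exact (mul_eq_zero.1 h2).resolve_left hv
      · simpa using h3
      · simpa using h4
      · simpa using h5
    · rintro ⟨h2, h3, h4, h5⟩
      have e : I * (-I * s) = s := by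
        have := Complex.I_mul_I
        linear_combination (-s) * this
      refine ⟨-I * s, ⟨?_, ?_, ?_, ?_⟩, ?_⟩
      · show G (-I * s - I * d) - w * G (-I * s + I * d) = 0
        rw [rot_FF hG, e, h2, mul_zero]
      · simpa using h3
      · simpa using h4
      · simpa using h5
      · show I * (-I * s) + 0 = s
        rw [add_zero, e]
  have h2 := h1 d T w hd hw hT
  constructor
  · have h3 := h.off_fin hd hw T
    rw [← e2] at h3
    exact Set.Finite.of_finite_image h3 (fun x _ y _ hxy => by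
      have h4 : I * x = I * y := add_right_cancel hxy
      exact mul_left_cancel₀ Complex.I_ne_zero h4)
  · have h3 := cnt_affine (FF_diff h.sy.diff d w) (v := v) (a := I) (b := 0) hv Complex.I_ne_zero (OffR G d w T)
    rw [← e1, e2] at h3
    unfold cnt at h3
    rw [h3]
    exact h2

theorem rot_heights (h : Hyp Φ) (hv : v ≠ 0) (hG : ∀ z, G z = v * Φ (I * z)) {c : ℝ} (hc : c < 1) :
    ∃ C : ℝ, 0 < C ∧ ∀ d T : ℝ, 0 < d → 2 ≤ T →
      volume {x : ℝ | 0 ≤ x ∧ x ≤ T ∧ ∃ (e : ℝ) (w z : ℂ), d ≤ e ∧ ‖w‖ = 1 ∧ z.re = x ∧ z.im ≠ 0 ∧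
        G (z - I * e) - w * G (z + I * e) = 0} ≤ ENNReal.ofReal (C * T ^ (1 - c * d)) := by
  obtain ⟨C, hC, h1⟩ := h.heights hc
  refine ⟨C, hC, fun d T hd hT => le_trans (measure_mono ?_) (h1 d T hd hT)⟩
  rintro x ⟨h2, h3, e, w, z, h4, h5, h6, h7, h8⟩
  rw [rot_FF hG] at h8
  exact ⟨h2, h3, e, w, I * z, h4, h5, (mul_eq_zero.1 h8).resolve_left hv, by simpa using h7, by simpa using h6⟩

end rot

/-! ### the line is `Re s = a` -/

section shift

variable {Λ : ℂ → ℂ} {u : ℂ} {a : ℝ}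

theorem shift_FF (hu : u ≠ 0) (d : ℝ) (w s : ℂ) :
    Λ (s + d) - w * Λ (s - d) = u⁻¹ * FF (fun z => u * Λ ((a : ℂ) + z)) d w (1 * s + -(a : ℂ)) := by
  unfold FF
  have e1 : (a : ℂ) + (1 * s + -(a : ℂ) + d) = s + d := by ring
  have e2 : (a : ℂ) + (1 * s + -(a : ℂ) - d) = s - d := by ring
  simp only [e1, e2]
  field_simp

theorem shift_crit (h : Hyp (fun z => u * Λ ((a : ℂ) + z))) (hu : u ≠ 0) {d : ℝ} (hd : 0 < d) :
    (∀ w : ℂ, ‖w‖ = 1 → ∀ s, Λ (s + d) - w * Λ (s - d) = 0 → s.re = a) ↔ ∀ s, Λ s = 0 → |s.re - a| ≤ d := by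
  have h1 := crit h.sy h.hz h.strip hd
  have hui := inv_ne_zero hu
  have e1 : (∀ w : ℂ, ‖w‖ = 1 → ∀ s, Λ (s + d) - w * Λ (s - d) = 0 → s.re = a) ↔
      ∀ w : ℂ, ‖w‖ = 1 → ∀ s, FF (fun z => u * Λ ((a : ℂ) + z)) d w s = 0 → s.re = 0 := by
    constructor
    · intro h2 w hw s hs
      have e : 1 * (s + (a : ℂ)) + -(a : ℂ) = s := by ring
      have h3 := h2 w hw (s + a) (by rw [shift_FF (a := a) hu, e, hs, mul_zero])
      have h4 : (s + (a : ℂ)).re = s.re + a := by simp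
      rw [h4] at h3
      linarith
    · intro h2 w hw s hs
      rw [shift_FF (a := a) hu] at hs
      have h3 := h2 w hw _ ((mul_eq_zero.1 hs).resolve_left hui)
      have h4 : (1 * s + -(a : ℂ)).re = s.re - a := by simp [sub_eq_add_neg]
      rw [h4] at h3
      linarith
  have e2 : (∀ s, Λ s = 0 → |s.re - a| ≤ d) ↔ ∀ b, u * Λ ((a : ℂ) + b) = 0 → |b.re| ≤ d := by
    constructor
    · intro h2 b hb
      have h3 := h2 _ ((mul_eq_zero.1 hb).resolve_left hu)
      have h4 : ((a : ℂ) + b).re - a = b.re := by simp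
      rwa [h4] at h3
    · intro h2 s hs
      have e : (a : ℂ) + (s - a) = s := by ring
      have h3 := h2 (s - a) (by rw [e, hs, mul_zero])
      have h4 : (s - (a : ℂ)).re = s.re - a := by simp
      rwa [h4] at h3
  rw [e1, e2]
  exact h1

/-- zeros off the line `Re s = a` -/
def OffA (Λ : ℂ → ℂ) (a d : ℝ) (w : ℂ) (T : ℝ) : Set ℂ :=
  {s | Λ (s + d) - w * Λ (s - d) = 0 ∧ s.re ≠ a ∧ 0 < s.im ∧ s.im ≤ T}

theorem shift_count (h : Hyp (fun z => u * Λ ((a : ℂ) + z))) (hu : u ≠ 0) {c : ℝ} (hc : c < 1) :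
    ∃ C : ℝ, 0 < C ∧ ∀ (d T : ℝ) (w : ℂ), 0 < d → 2 ≤ T → ‖w‖ = 1 → (OffA Λ a d w T).Finite ∧
      ((∑ᶠ s ∈ OffA Λ a d w T, analyticOrderNatAt (fun s => Λ (s + d) - w * Λ (s - d)) s : ℕ) : ℝ) ≤
        C * T ^ (1 - c * d) * Real.log T := by
  obtain ⟨C, hC, h1⟩ := h.count hc
  have hui := inv_ne_zero hu
  refine ⟨C, hC, fun d T w hd hT hw => ?_⟩
  have e1 : (fun s => Λ (s + d) - w * Λ (s - d)) =
      fun s => u⁻¹ * FF (fun z => u * Λ ((a : ℂ) + z)) d w (1 * s + -(a : ℂ)) := by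
    funext s
    exact shift_FF hu d w s
  have e2 : (fun z : ℂ => 1 * z + -(a : ℂ)) '' OffA Λ a d w T = Offz (FF (fun z => u * Λ ((a : ℂ) + z)) d w) T := by
    ext s
    constructor
    · rintro ⟨z, ⟨h2, h3, h4, h5⟩, rfl⟩
      rw [shift_FF (a := a) hu] at h2
      have hre : (1 * z + -(a : ℂ)).re = z.re - a := by simp [sub_eq_add_neg]
      have him : (1 * z + -(a : ℂ)).im = z.im := by simp
      refine ⟨(mul_eq_zero.1 h2).resolve_left hui, ?_, ?_, ?_⟩
      · show (1 * z + -(a : ℂ)).re ≠ 0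
        rw [hre]
        exact sub_ne_zero.2 h3
      · show 0 < (1 * z + -(a : ℂ)).im
        rw [him]
        exact h4
      · show (1 * z + -(a : ℂ)).im ≤ T
        rw [him]
        exact h5
    · rintro ⟨h2, h3, h4, h5⟩
      have e : 1 * (s + (a : ℂ)) + -(a : ℂ) = s := by ring
      have hre : (s + (a : ℂ)).re = s.re + a := by simp
      have him : (s + (a : ℂ)).im = s.im := by simp
      refine ⟨s + a, ⟨?_, ?_, ?_, ?_⟩, e⟩
      · rw [shift_FF (a := a) hu, e, h2, mul_zero]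
      · rw [hre]
        intro h6
        apply h3
        linarith
      · rw [him]; exact h4
      · rw [him]; exact h5
  have h2 := h1 d T w hd hw hT
  constructor
  · have h3 := h.off_fin hd hw T
    rw [← e2] at h3
    exact Set.Finite.of_finite_image h3 (fun x _ y _ hxy => by
      have h4 : (1 : ℂ) * x = 1 * y := add_right_cancel hxy
      simpa using h4)
  · have h3 := cnt_affine (FF_diff h.sy.diff d w) (v := u⁻¹) (a := 1) (b := -(a : ℂ)) hui one_ne_zero (OffA Λ a d w T)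
    rw [← e1, e2] at h3
    unfold cnt at h3
    rw [h3]
    exact h2

theorem shift_heights (h : Hyp (fun z => u * Λ ((a : ℂ) + z))) (hu : u ≠ 0) {c : ℝ} (hc : c < 1) :
    ∃ C : ℝ, 0 < C ∧ ∀ d T : ℝ, 0 < d → 2 ≤ T →
      volume {t : ℝ | 0 ≤ t ∧ t ≤ T ∧ ∃ (e : ℝ) (w s : ℂ), d ≤ e ∧ ‖w‖ = 1 ∧ s.im = t ∧ s.re ≠ a ∧
        Λ (s + e) - w * Λ (s - e) = 0} ≤ ENNReal.ofReal (C * T ^ (1 - c * d)) := by
  obtain ⟨C, hC, h1⟩ := h.heights hc
  have hui := inv_ne_zero hu
  refine ⟨C, hC, fun d T hd hT => le_trans (measure_mono ?_) (h1 d T hd hT)⟩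
  rintro x ⟨h2, h3, e, w, s, h4, h5, h6, h7, h8⟩
  rw [shift_FF (a := a) hu] at h8
  have hre : (1 * s + -(a : ℂ)).re = s.re - a := by simp [sub_eq_add_neg]
  have him : (1 * s + -(a : ℂ)).im = s.im := by simp
  refine ⟨h2, h3, e, w, 1 * s + -(a : ℂ), h4, h5, (mul_eq_zero.1 h8).resolve_left hui, ?_, ?_⟩
  · rw [hre]
    exact sub_ne_zero.2 h7
  · rw [him]
    exact h6

end shift

end Pool.Agent.P8H74.SD
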